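import Pool.Agent.Lib_GG.Reals

/-!
# Piece GG4: ground sorts

For a ground type `Y : Type u` and `K : Y → Set P` the GROUND SORT `GS g K` is the type of the `y : Y` in the hull such that some condition in `K y` is in `g`. It is
coded in `g.M` by check names, for club many `g` (`GSok`). All evaluated relations between ground sorts (and base types) are internal.
-/

set_option autoImplicit false

namespace Pool.Agent.GGen

open Forcing Inner Name HMod

universe u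

variable {P : Type u} [Preorder P] [OrderTop P] {Y Y' : Type u}

def GS (g : GG P) (K : Y → Set P) : Type u := {y : Y // g.has y ∧ ∃ c ∈ K y, c ∈ g}

/-- the name of the ground sort -/
noncomputable def gsName (K : Y → Set P) : Name P :=
  Name.mk ((y : Y) × K y) (fun q => chk q.1) (fun q => q.2.1)

/-- the name of the ground sort is in the hull, and the elements of its value are given by elements of the hull -/
structure GSok (g : GG P) (K : Y → Set P) : Prop where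
  mem : gsName K ∈ g.gen.N
  spl : ∀ x, g.M.E x (g.el (gsName K) mem) →
    ∃ (y : Y) (hy : g.has y), (∃ c ∈ K y, c ∈ g) ∧ x = g.el (chk y) hy

/-- the name of a family of named objects -/
noncomputable def ggrName {S : Type u} (ν : S → Name P) (Z : S → Set P) : Name P :=
  Name.mk ((s : S) × Z s) (fun q => ν q.1) (fun q => q.2.1)

theorem ggr_split {S : Type u} (ν : S → Name P) (Z : S → Set P) :
    ∀ᶠ g in GC P, ∀ (hx : ggrName ν Z ∈ g.gen.N) (t : g.M.M), g.M.E t (g.el (ggrName ν Z) hx) →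
      ∃ s, g.has s ∧ (∃ c ∈ Z s, c ∈ g) ∧ ∃ h : ν s ∈ g.gen.N, t = g.el (ν s) h := by
  classical
  rcases isEmpty_or_nonempty S with hS | ⟨⟨s₀⟩⟩
  · refine Filter.Eventually.of_forall fun g hx t ht => ?_
    obtain ⟨τ, rfl⟩ := g.gen.exists_rep t
    obtain ⟨n, j, _, _⟩ := g.rich.split τ.1 τ.2 _ hx ht
    exact (hS.false j.1).elim
  · let F : Name P → P → S := fun τ p =>
      if h : ∃ s, (∃ c ∈ Z s, p ≤ c) ∧ feq τ (ν s) p then h.choose else s₀
    filter_upwards [GC_normal (fun τ => GC_op (F τ)), GC_opH ν] with g h1 h2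
    intro hx t ht
    obtain ⟨τ, rfl⟩ := g.gen.exists_rep t
    obtain ⟨n, j, h3, h4⟩ := g.rich.split τ.1 τ.2 _ hx ht
    have h5 : ∃ s, (∃ c ∈ Z s, g.gen.G n ≤ c) ∧ feq τ.1 (ν s) (g.gen.G n) :=
      ⟨j.1, ⟨j.2.1, j.2.2, h3⟩, h4⟩
    have h6 : F τ.1 (g.gen.G n) = h5.choose := dif_pos h5
    have h7 : g.has (F τ.1 (g.gen.G n)) := h1 τ.1 τ.2 _ (g.cond n)
    rw [h6] at h7
    obtain ⟨⟨c, hc, hn⟩, h8⟩ := h5.choose_spec
    exact ⟨h5.choose, h7, ⟨c, hc, n, hn⟩, h2 _ h7, (g.gen.cls_eq).2 ⟨n, h8⟩⟩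

theorem ggr_mem {S : Type u} (ν : S → Name P) (Z : S → Set P) {g : GG P}
    (hx : ggrName ν Z ∈ g.gen.N) {s : S} (h : ν s ∈ g.gen.N) (hc : ∃ c ∈ Z s, c ∈ g) :
    g.M.E (g.el (ν s) h) (g.el (ggrName ν Z) hx) := by
  obtain ⟨c, hc, n, hn⟩ := hc
  exact ⟨n, fmem_nm (ggrName ν Z) ⟨s, ⟨c, hc⟩⟩ hn⟩

theorem ggr_el_inj {g : GG P} {y y' : Y} (h : g.has y) (h' : g.has y')
    (he : g.el (chk y) h = g.el (chk y') h') : y = y' := by
  obtain ⟨n, hn⟩ := (g.gen.cls_eq).1 he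
  exact feq_chk.1 hn

theorem ggr_el_opair {g : GG P} {x y : Name P} (hx : x ∈ g.gen.N) (hy : y ∈ g.gen.N)
    (h : opairName x y ∈ g.gen.N) :
    g.el (opairName x y) h = pair g.M.E (g.el x hx) (g.el y hy) :=
  g.rich.cls_opairName (x := ⟨x, hx⟩) (y := ⟨y, hy⟩)

/-- PROOF. `mem` by `GC_name`. `spl`: let `τ` be a name of `x`. For every name `τ` the set of the `p` such that `p ≤ c`, `c ∈ K y`, `p` forces `τ = chk y`
for some `y`, or no `q ≤ p` forces `τ ∈ gsName K`, is dense. Choose `y = f (τ, p)` for `p` in this set; `f` is an operation from names and conditions (use `GC_normal` and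
`GC_normalH`, or `GC_nameop` for `l = [τ, chk p]`), and the conditions `G n` are in the hull. -/
theorem GC_gsok (K : Y → Set P) : ∀ᶠ g in GC P, GSok g K := by
  filter_upwards [GC_name (gsName K), ggr_split chk K] with g h1 h2
  refine ⟨h1, fun x hx => ?_⟩
  obtain ⟨y, h3, h4, h5, h6⟩ := h2 h1 x hx
  exact ⟨y, h3, h4, h6⟩

theorem GC_gsokH {Z : Type u} (K : Z → Y → Set P) :
    ∀ᶠ g in GC P, ∀ z, g.has z → GSok g (K z) :=
  GC_normalH fun z => GC_gsok (K z)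

noncomputable instance {g : GG P} {K : Y → Set P} [h : Fact (GSok g K)] : Cod g.M (GS g K) where
  c y := g.el (chk y.1) y.2.1
  inj := by
    intro y y' he
    exact Subtype.ext (ggr_el_inj y.2.1 y'.2.1 he)
  dom := g.el (gsName K) h.out.mem
  mem_dom := by
    intro x
    constructor
    · intro hx
      obtain ⟨y, hy, h1, h2⟩ := h.out.spl x hx
      exact ⟨⟨y, hy, h1⟩, h2⟩
    · rintro ⟨y, rfl⟩
      exact ggr_mem chk K h.out.mem y.2.1 y.2.2

/-- a good naming: the names of hull elements are in the hull and distinct -/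
structure GGRnm (g : GG P) {S : Type u} (ν : S → Name P) : Prop where
  mem : ∀ s, g.has s → ν s ∈ g.gen.N
  inj : ∀ s s' (h : ν s ∈ g.gen.N) (h' : ν s' ∈ g.gen.N), g.has s → g.has s' →
    g.el (ν s) h = g.el (ν s') h' → s = s'

/-- a coded type whose codes are given by a good naming -/
structure GGRty (g : GG P) {S : Type u} (ν : S → Name P) (α : Type*) [Cod g.M α] (s : α → S) :
    Prop where
  nm : GGRnm g ν
  has : ∀ a, g.has (s a)
  c : ∀ a (h : ν (s a) ∈ g.gen.N), Cod.c (𝔐 := g.M) a = g.el (ν (s a)) h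

theorem ggr_nm_chk (g : GG P) : GGRnm g (chk : Y → Name P) :=
  ⟨fun _ h => h, fun _ _ h h' _ _ he => ggr_el_inj h h' he⟩

theorem ggr_nm_num (g : GG P) : GGRnm g (fun n : ULift.{u} ℕ => (num n.down : Name P)) := by
  refine ⟨fun s _ => g.rich.num_mem _, fun s s' h h' _ _ he => ?_⟩
  have h1 : g.M.nu s.down = g.M.nu s'.down := he
  exact ULift.ext _ _ (g.M.nu_inj h1)

theorem ggr_nm_pair {g : GG P} {S S' : Type u}
    (hp : ∀ (y : S) (z : S'), g.has (y, z) ↔ g.has y ∧ g.has z)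
    {ν : S → Name P} {ν' : S' → Name P} (h : GGRnm g ν) (h' : GGRnm g ν') :
    GGRnm g (fun q : S × S' => opairName (ν q.1) (ν' q.2)) := by
  constructor
  · rintro ⟨y, z⟩ hq
    rw [hp] at hq
    exact g.rich.opair_mem (h.mem _ hq.1) (h'.mem _ hq.2)
  · rintro ⟨y, z⟩ ⟨y', z'⟩ h1 h2 h3 h4 he
    rw [hp] at h3 h4
    simp only at he
    rw [ggr_el_opair (h.mem _ h3.1) (h'.mem _ h3.2), ggr_el_opair (h.mem _ h4.1) (h'.mem _ h4.2),
      pair_inj g.M.zfc] at he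
    exact Prod.ext (h.inj _ _ _ _ h3.1 h4.1 he.1) (h'.inj _ _ _ _ h3.2 h4.2 he.2)

theorem ggr_ty_prod {g : GG P} {S S' : Type u}
    (hp : ∀ (y : S) (z : S'), g.has (y, z) ↔ g.has y ∧ g.has z)
    {ν : S → Name P} {ν' : S' → Name P} {α β : Type*} [Cod g.M α] [Cod g.M β] {s : α → S}
    {s' : β → S'} (h : GGRty g ν α s) (h' : GGRty g ν' β s') :
    GGRty g (fun q : S × S' => opairName (ν q.1) (ν' q.2)) (α × β) (fun q => (s q.1, s' q.2)) := by
  refine ⟨ggr_nm_pair hp h.nm h'.nm, fun a => (hp _ _).2 ⟨h.has _, h'.has _⟩, fun a ha => ?_⟩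
  rw [c_prod, h.c a.1 (h.nm.mem _ (h.has _)), h'.c a.2 (h'.nm.mem _ (h'.has _))]
  exact (ggr_el_opair _ _ _).symm

theorem ggr_ty_gs {g : GG P} {K : Y → Set P} [Fact (GSok g K)] :
    GGRty g (chk : Y → Name P) (GS g K) (fun y => y.1) :=
  ⟨ggr_nm_chk g, fun a => a.2.1, fun _ _ => rfl⟩

theorem ggr_ty_nat {g : GG P} (h : ∀ n : ULift.{u} ℕ, g.has n) :
    GGRty g (fun n : ULift.{u} ℕ => (num n.down : Name P)) ℕ (fun n => ⟨n⟩) :=
  ⟨ggr_nm_num g, fun _ => h _, fun _ _ => rfl⟩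

theorem ggr_int {S : Type u} (ν : S → Name P) (Z : S → Set P) : ∀ᶠ g in GC P,
    ∀ (α : Type u) [Cod g.M α] (s : α → S), GGRty g ν α s →
      Int g.M (fun a => ∃ c ∈ Z (s a), c ∈ g) := by
  filter_upwards [ggr_split ν Z, GC_name (ggrName ν Z)] with g h1 h2
  intro α _ s hs
  refine ⟨⟨g.el (ggrName ν Z) h2, fun a => ?_⟩⟩
  have h4 := hs.nm.mem _ (hs.has a)
  rw [hs.c a h4]
  constructor
  · intro h5
    obtain ⟨s', h6, h7, h8, h9⟩ := h1 h2 _ h5
    rw [hs.nm.inj _ _ h4 h8 (hs.has a) h6 h9]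
    exact h7
  · intro h5
    exact ggr_mem ν Z h2 h4 h5

/-- evaluated unary relations are internal. PROOF. `gsName Z` is in the hull; for `y` in the hull, `E (chk y) (gsName Z)` iff some `c ∈ Z y` is in `g` (`feq_chk`;
genericity, `GSok g Z`). -/
theorem gs_int (K Z : Y → Set P) : ∀ᶠ g in GC P, ∀ [Fact (GSok g K)],
    Int g.M (fun y : GS g K => ∃ c ∈ Z y.1, c ∈ g) := by
  filter_upwards [ggr_int (chk : Y → Name P) Z] with g h1
  intro _
  exact h1 _ _ ggr_ty_gs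

/-- binary evaluated relations (used for `gs_int2`) -/
theorem ggr_int2 (K : Y → Set P) (K' : Y' → Set P) (Z : Y → Y' → Set P) :
    ∀ᶠ g in GC P, ∀ [Fact (GSok g K)] [Fact (GSok g K')],
      Int g.M (fun q : GS g K × GS g K' => ∃ c ∈ Z q.1.1 q.2.1, c ∈ g) := by
  filter_upwards [ggr_int (fun q : Y × Y' => opairName (chk q.1) (chk q.2))
    (fun q => Z q.1 q.2), GC_pair (P := P) (Y := Y) (Z := Y')] with g h1 h2
  intro _ _
  exact h1 _ _ (ggr_ty_prod h2 ggr_ty_gs ggr_ty_gs)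

theorem ggr_rel2 (K : Y → Set P) (K' : Y' → Set P) (R : Y → Y' → Prop) :
    ∀ᶠ g in GC P, ∀ [Fact (GSok g K)] [Fact (GSok g K')],
      Int g.M (fun q : GS g K × GS g K' => R q.1.1 q.2.1) := by
  filter_upwards [ggr_int2 K K' (fun y y' => {_c : P | R y y'})] with g h1
  intro _ _
  refine int_congr (fun q => ?_) h1
  constructor
  · rintro ⟨c, hc, _⟩
    exact hc
  · intro h
    exact ⟨⊤, h, top_mem g⟩

/-- products of ground sorts -/
def prodK (K : Y → Set P) (K' : Y' → Set P) : Y × Y' → Set P :=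
  fun q => {c | ∃ a ∈ K q.1, ∃ b ∈ K' q.2, c ≤ a ∧ c ≤ b}

/-- PROOF. Its graph: the set named by the name of all `⟨⟨chk y, chk y'⟩, chk (y, y')⟩` (`opairName`, conditions in `K y`, `K' y'`). -/
theorem gs_pair (K : Y → Set P) (K' : Y' → Set P) :
    ∀ᶠ g in GC P, ∀ [Fact (GSok g K)] [Fact (GSok g K')] [Fact (GSok g (prodK K K'))],
      ∃ f : GS g K × GS g K' → GS g (prodK K K'), IntF g.M f ∧ ∀ q, (f q).1 = (q.1.1, q.2.1) := by
  filter_upwards [ggr_int (fun q : (Y × Y') × (Y × Y') =>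
      opairName (opairName (chk q.1.1) (chk q.1.2)) (chk q.2)) (fun q => {_c : P | q.1 = q.2}),
    GC_pair (P := P) (Y := Y) (Z := Y'), GC_pair (P := P) (Y := Y × Y') (Z := Y × Y')]
    with g h1 h2 h3
  intro _ _ _
  have hmem : ∀ q : GS g K × GS g K', g.has (q.1.1, q.2.1) ∧
      ∃ c ∈ prodK K K' (q.1.1, q.2.1), c ∈ g := by
    rintro ⟨⟨y, hy, a, ha, hag⟩, ⟨y', hy', b, hb, hbg⟩⟩
    obtain ⟨r, hr, _, hra, hrb⟩ := mem_common hag hbg
    exact ⟨(h2 _ _).2 ⟨hy, hy'⟩, r, ⟨a, ha, b, hb, hra, hrb⟩, hr⟩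
  refine ⟨fun q => ⟨(q.1.1, q.2.1), hmem q⟩, ⟨?_⟩, fun q => rfl⟩
  refine int_congr (fun q => ?_)
    (h1 ((GS g K × GS g K') × GS g (prodK K K')) _
      (ggr_ty_prod h3 (ggr_ty_prod h2 ggr_ty_gs ggr_ty_gs) ggr_ty_gs))
  constructor
  · rintro ⟨c, hc, _⟩
    exact Subtype.ext hc
  · intro h
    exact ⟨⊤, congrArg Subtype.val h, top_mem g⟩

theorem gs_fst (K : Y → Set P) (K' : Y' → Set P) :
    ∀ᶠ g in GC P, ∀ [Fact (GSok g K)] [Fact (GSok g (prodK K K'))],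
      ∃ f : GS g (prodK K K') → GS g K, IntF g.M f ∧ ∀ q, (f q).1 = q.1.1 := by
  filter_upwards [ggr_rel2 (prodK K K') K (fun w y => w.1 = y),
    GC_pair (P := P) (Y := Y) (Z := Y')] with g h1 h2
  intro _ _
  have hmem : ∀ q : GS g (prodK K K'), g.has q.1.1 ∧ ∃ c ∈ K q.1.1, c ∈ g := by
    rintro ⟨⟨y, y'⟩, hq, c, ⟨a, ha, b, hb, hca, hcb⟩, hcg⟩
    exact ⟨((h2 _ _).1 hq).1, a, ha, mem_up hcg hca⟩
  refine ⟨fun q => ⟨q.1.1, hmem q⟩, ⟨int_congr (fun q => ?_) h1⟩, fun q => rfl⟩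
  exact ⟨fun h => Subtype.ext h, fun h => congrArg Subtype.val h⟩

theorem gs_snd (K : Y → Set P) (K' : Y' → Set P) :
    ∀ᶠ g in GC P, ∀ [Fact (GSok g K')] [Fact (GSok g (prodK K K'))],
      ∃ f : GS g (prodK K K') → GS g K', IntF g.M f ∧ ∀ q, (f q).1 = q.1.2 := by
  filter_upwards [ggr_rel2 (prodK K K') K' (fun w y => w.2 = y),
    GC_pair (P := P) (Y := Y) (Z := Y')] with g h1 h2
  intro _ _
  have hmem : ∀ q : GS g (prodK K K'), g.has q.1.2 ∧ ∃ c ∈ K' q.1.2, c ∈ g := by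
    rintro ⟨⟨y, y'⟩, hq, c, ⟨a, ha, b, hb, hca, hcb⟩, hcg⟩
    exact ⟨((h2 _ _).1 hq).2, b, hb, mem_up hcg hcb⟩
  refine ⟨fun q => ⟨q.1.2, hmem q⟩, ⟨int_congr (fun q => ?_) h1⟩, fun q => rfl⟩
  exact ⟨fun h => Subtype.ext h, fun h => congrArg Subtype.val h⟩

/-- evaluated relations between a ground sort and `ℕ` -/
theorem ggr_intN (K : Y → Set P) (Z : Y → ℕ → Set P) : ∀ᶠ g in GC P, ∀ [Fact (GSok g K)],
      Int g.M (fun q : GS g K × ℕ => ∃ c ∈ Z q.1.1 q.2, c ∈ g) := by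
  filter_upwards [ggr_int (fun q : Y × ULift.{u} ℕ => opairName (chk q.1) (num q.2.down))
    (fun q => Z q.1 q.2.down), GC_pair (P := P) (Y := Y) (Z := ULift.{u} ℕ),
    GC_hasT (P := P) (Y := ULift.{u} ℕ)] with g h1 h2 h3
  intro _
  exact h1 _ _ (ggr_ty_prod h2 ggr_ty_gs (ggr_ty_nat h3))

theorem ggr_intN2 (K : Y → Set P) (K' : Y' → Set P) (Z : Y → Y' → ℕ → Set P) :
    ∀ᶠ g in GC P, ∀ [Fact (GSok g K)] [Fact (GSok g K')],
      Int g.M (fun q : GS g K × GS g K' × ℕ => ∃ c ∈ Z q.1.1 q.2.1.1 q.2.2, c ∈ g) := by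
  filter_upwards [ggr_int (fun q : Y × Y' × ULift.{u} ℕ =>
      opairName (chk q.1) (opairName (chk q.2.1) (num q.2.2.down)))
    (fun q => Z q.1 q.2.1 q.2.2.down), GC_pair (P := P) (Y := Y) (Z := Y' × ULift.{u} ℕ),
    GC_pair (P := P) (Y := Y') (Z := ULift.{u} ℕ),
    GC_hasT (P := P) (Y := ULift.{u} ℕ)] with g h1 h2 h2' h3
  intro _ _
  exact h1 _ _ (ggr_ty_prod h2 ggr_ty_gs (ggr_ty_prod h2' ggr_ty_gs (ggr_ty_nat h3)))

theorem ggr_intB {ι : Type} [∀ 𝔐 : HM.{u + 1}, Cod 𝔐 ι] [BL.{u + 1} ι] (K : Y → Set P)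
    (Z : Y → ι → Set P) : ∀ᶠ g in GC P, ∀ [Fact (GSok g K)],
      Int g.M (fun q : GS g K × ι => ∃ c ∈ Z q.1.1 q.2, c ∈ g) := by
  filter_upwards [ggr_intN K (fun y n => {c | ∃ i : ι, BL.code.{u + 1} i = n ∧ c ∈ Z y i})]
    with g h1
  intro _
  have h2 : IntF g.M (fun q : GS g K × ι => (q.1, BL.code.{u + 1} q.2)) :=
    intF_pair intF_fst (intF_comp (BL.int g.M) intF_snd)
  refine int_congr (fun q => ?_) (int_comp h1 h2)
  constructor
  · rintro ⟨c, ⟨i, hi, hc⟩, hcg⟩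
    rw [BL.inj hi] at hc
    exact ⟨c, hc, hcg⟩
  · rintro ⟨c, hc, hcg⟩
    exact ⟨c, ⟨_, rfl, hc⟩, hcg⟩

theorem ggr_relB {ι : Type} [∀ 𝔐 : HM.{u + 1}, Cod 𝔐 ι] [BL.{u + 1} ι] (K : Y → Set P)
    (R : Y → ι → Prop) : ∀ᶠ g in GC P, ∀ [Fact (GSok g K)],
      Int g.M (fun q : GS g K × ι => R q.1.1 q.2) := by
  filter_upwards [ggr_intB K (fun y i => {_c : P | R y i})] with g h1
  intro _
  refine int_congr (fun q => ?_) h1
  constructor
  · rintro ⟨c, hc, _⟩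
    exact hc
  · intro h
    exact ⟨⊤, h, top_mem g⟩

/-- base types as ground sorts -/
theorem gs_base {ι : Type} [∀ 𝔐 : HM.{u + 1}, Cod 𝔐 ι] [BL.{u + 1} ι] :
    ∀ᶠ g in GC P, ∀ [Fact (GSok g (fun _ : ULift.{u} ι => ({⊤} : Set P)))],
      ∃ f : ι → GS g (fun _ : ULift.{u} ι => ({⊤} : Set P)), IntF g.M f ∧ ∀ i, (f i).1 = ⟨i⟩ := by
  have hι : Countable ι := (BL.inj.{u + 1} (α := ι)).countable
  filter_upwards [ggr_relB (fun _ : ULift.{u} ι => ({⊤} : Set P)) (fun y i => y.down = i),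
    GC_hasT (P := P) (Y := ULift.{u} ι)] with g h1 h2
  intro _
  have h4 := int_swap
    (R := fun (y : GS g (fun _ : ULift.{u} ι => ({⊤} : Set P))) (i : ι) => y.1.down = i) h1
  refine ⟨fun i => ⟨⟨i⟩, h2 _, ⊤, rfl, top_mem g⟩, ⟨int_congr (fun q => ?_) h4⟩,
    fun i => rfl⟩
  constructor
  · intro h
    exact Subtype.ext (ULift.ext _ _ h.symm)
  · intro h
    have h3 := congrArg (fun w => w.1.down) h
    exact h3.symm

/-- binary evaluated relations -/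
theorem gs_int2 (K : Y → Set P) (K' : Y' → Set P) (Z : Y → Y' → Set P) :
    ∀ᶠ g in GC P, ∀ [Fact (GSok g K)] [Fact (GSok g K')],
      Int g.M (fun q : GS g K × GS g K' => ∃ c ∈ Z q.1.1 q.2.1, c ∈ g) :=
  ggr_int2 K K' Z

/-- evaluated relations between a ground sort and a base type -/
theorem gs_intB {ι : Type} [∀ 𝔐 : HM.{u + 1}, Cod 𝔐 ι] [BL.{u + 1} ι] (K : Y → Set P)
    (Z : Y → ι → Set P) : ∀ᶠ g in GC P, ∀ [Fact (GSok g K)],
      Int g.M (fun q : GS g K × ι => ∃ c ∈ Z q.1.1 q.2, c ∈ g) :=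
  ggr_intB K Z

theorem gs_intB2 {ι : Type} [∀ 𝔐 : HM.{u + 1}, Cod 𝔐 ι] [BL.{u + 1} ι] (K : Y → Set P)
    (K' : Y' → Set P) (Z : Y → Y' → ι → Set P) : ∀ᶠ g in GC P, ∀ [Fact (GSok g K)]
    [Fact (GSok g K')],
      Int g.M (fun q : GS g K × GS g K' × ι => ∃ c ∈ Z q.1.1 q.2.1.1 q.2.2, c ∈ g) := by
  filter_upwards [ggr_intN2 K K'
    (fun y y' n => {c | ∃ i : ι, BL.code.{u + 1} i = n ∧ c ∈ Z y y' i})] with g h1
  intro _ _
  have h2 : IntF g.M (fun q : GS g K × GS g K' × ι => (q.1, q.2.1, BL.code.{u + 1} q.2.2)) :=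
    intF_pair intF_fst (intF_pair (intF_fst' intF_snd)
      (intF_comp (BL.int g.M) (intF_snd' intF_snd)))
  refine int_congr (fun q => ?_) (int_comp h1 h2)
  constructor
  · rintro ⟨c, ⟨i, hi, hc⟩, hcg⟩
    rw [BL.inj hi] at hc
    exact ⟨c, hc, hcg⟩
  · rintro ⟨c, hc, hcg⟩
    exact ⟨c, ⟨_, rfl, hc⟩, hcg⟩

/-- plain ground relations: special case `Z = {⊤}` or `∅` -/
theorem gs_rel (K : Y → Set P) (R : Y → Prop) : ∀ᶠ g in GC P, ∀ [Fact (GSok g K)],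
    Int g.M (fun y : GS g K => R y.1) := by
  filter_upwards [gs_int K (fun y => {_c : P | R y})] with g h1
  intro _
  refine int_congr (fun q => ?_) h1
  constructor
  · rintro ⟨c, hc, _⟩
    exact hc
  · intro h
    exact ⟨⊤, h, top_mem g⟩

theorem gs_rel2 (K : Y → Set P) (K' : Y' → Set P) (R : Y → Y' → Prop) :
    ∀ᶠ g in GC P, ∀ [Fact (GSok g K)] [Fact (GSok g K')],
      Int g.M (fun q : GS g K × GS g K' => R q.1.1 q.2.1) :=
  ggr_rel2 K K' R

theorem gs_relB {ι : Type} [∀ 𝔐 : HM.{u + 1}, Cod 𝔐 ι] [BL.{u + 1} ι] (K : Y → Set P)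
    (R : Y → ι → Prop) : ∀ᶠ g in GC P, ∀ [Fact (GSok g K)],
      Int g.M (fun q : GS g K × ι => R q.1.1 q.2) :=
  ggr_relB K R

/-- the truth of a decided property of a hull element is given by the conditions -/
theorem ggr_dec_iff {Y : Type u} {T : Y → GG P → Prop} (h : ∀ y, Dec (T y)) :
    ∀ᶠ g in GC P, ∀ y, g.has y → ((∃ c ∈ {c : P | Fo c (T y)}, c ∈ g) ↔ T y g) := by
  filter_upwards [Dec.truthH h, GC_normalH (fun y => GC_fo (T y))] with g h1 h2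
  intro y hy
  constructor
  · rintro ⟨c, hc, n, hn⟩
    exact h2 y hy _ (g.cond n) (Fo.mono hc hn) (G_mem g n)
  · intro hT
    obtain ⟨n, hn⟩ := h1 y hy hT
    exact ⟨_, hn, G_mem g n⟩

/-- the decided relations of ground objects are internal. PROOF. `Z y = {c | Fo c (T y)}`; for `y` in the hull, `T y g` iff some `c ∈ Z y` is in `g`
(`Dec.truthH`, `GC_fo` and normality). -/
theorem gs_dec (K : Y → Set P) {T : Y → GG P → Prop} (h : ∀ y, Dec (T y)) :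
    ∀ᶠ g in GC P, ∀ [Fact (GSok g K)], Int g.M (fun y : GS g K => T y.1 g) := by
  filter_upwards [gs_int K (fun y => {c | Fo c (T y)}), ggr_dec_iff h] with g h1 h2
  intro _
  exact int_congr (fun q => h2 q.1 q.2.1) h1

theorem gs_decB {ι : Type} [∀ 𝔐 : HM.{u + 1}, Cod 𝔐 ι] [BL.{u + 1} ι] (K : Y → Set P)
    {T : Y → ι → GG P → Prop} (h : ∀ y i, Dec (T y i)) :
    ∀ᶠ g in GC P, ∀ [Fact (GSok g K)], Int g.M (fun q : GS g K × ι => T q.1.1 q.2 g) := by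
  have hι : Countable ι := (BL.inj.{u + 1} (α := ι)).countable
  have h0 : ∀ᶠ g in GC P, ∀ i : ι, ∀ y, g.has y →
      ((∃ c ∈ {c : P | Fo c (T y i)}, c ∈ g) ↔ T y i g) :=
    eventually_countable_forall.2 fun i => ggr_dec_iff (fun y => h y i)
  filter_upwards [gs_intB K (fun y i => {c | Fo c (T y i)}), h0] with g h1 h2
  intro _
  exact int_congr (fun q => h2 q.2 q.1.1 q.1.2.1) h1

end Pool.Agent.GGen
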