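import Pool.Agent.Lib_GG.Reals

/-!
# Piece GG5: names of filters on base types
-/

set_option autoImplicit false

namespace Pool.Agent.GGen

open Forcing Inner Name HMod

universe u

variable {P : Type u} [Preorder P] [OrderTop P] {ι : Type}

/-- filter names: sets of pairs (shallow name of a set, condition) -/
abbrev FN (ι : Type) (P : Type u) : Type u := Set ((ι → Set P) × P)

/-- the live members of the name -/
def Live (𝓕 : FN ι P) (g : GG P) (X : ι → Set P) : Prop := g.has X ∧ ∃ c, (X, c) ∈ 𝓕 ∧ c ∈ g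

/-- the evaluated family is a nonempty filter base (directed) -/
def Dir (𝓕 : FN ι P) (g : GG P) : Prop :=
  (∃ X, Live 𝓕 g X) ∧ ∀ X Y, Live 𝓕 g X → Live 𝓕 g Y → ∃ Z, Live 𝓕 g Z ∧
    ev Z g ⊆ ev X g ∩ ev Y g

/-- the filter generated by the live members -/
def evF (𝓕 : FN ι P) (g : GG P) : Filter ι := Filter.generate {S | ∃ X, Live 𝓕 g X ∧ S = ev X g}

theorem mem_evF {𝓕 : FN ι P} {g : GG P} (h : Dir 𝓕 g) {S : Set ι} :
    S ∈ evF 𝓕 g ↔ ∃ X, Live 𝓕 g X ∧ ev X g ⊆ S := by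
  constructor
  · intro hS
    induction hS with
    | basic hT =>
      obtain ⟨X, hX, rfl⟩ := hT
      exact ⟨X, hX, subset_rfl⟩
    | univ =>
      obtain ⟨X, hX⟩ := h.1
      exact ⟨X, hX, Set.subset_univ _⟩
    | superset _ hST ih =>
      obtain ⟨X, hX, hXS⟩ := ih
      exact ⟨X, hX, hXS.trans hST⟩
    | inter _ _ ih1 ih2 =>
      obtain ⟨X, hX, hXS⟩ := ih1
      obtain ⟨Y, hY, hYT⟩ := ih2
      obtain ⟨Z, hZ, hZ'⟩ := h.2 X Y hX hY
      exact ⟨Z, hZ, hZ'.trans (Set.inter_subset_inter hXS hYT)⟩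
  · rintro ⟨X, hX, hXS⟩
    exact Filter.mem_of_superset (Filter.mem_generate_of_mem ⟨X, hX, rfl⟩) hXS

/-- the condition part of `Live` is decided -/
theorem gg5_dec_live0 (𝓕 : FN ι P) (X : ι → Set P) :
    Dec (fun g : GG P => ∃ c, (X, c) ∈ 𝓕 ∧ c ∈ g) := by
  refine (dec_exMem (fun y : {c : P // (X, c) ∈ 𝓕} => y.1)).congr
    (Filter.Eventually.of_forall fun g => ?_)
  constructor
  · rintro ⟨y, hy⟩
    exact ⟨y.1, y.2, hy⟩
  · rintro ⟨c, hc, hg⟩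
    exact ⟨⟨c, hc⟩, hg⟩

theorem dec_live (𝓕 : FN ι P) (X : ι → Set P) : Dec (fun g => Live 𝓕 g X) := by
  refine (gg5_dec_live0 𝓕 X).congr ?_
  filter_upwards [GC_has (P := P) X] with g hg
  exact ⟨fun h => ⟨hg, h⟩, fun h => h.2⟩

/-- quantifiers over the live members -/
theorem dec_exLive (𝓕 : FN ι P) {T : (ι → Set P) → GG P → Prop} (h : ∀ X, Dec (T X)) :
    Dec (fun g => ∃ X, Live 𝓕 g X ∧ T X g) := by
  refine (dec_exH (fun X => (gg5_dec_live0 𝓕 X).and (h X))).congr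
    (Filter.Eventually.of_forall fun g => ?_)
  constructor
  · rintro ⟨X, h1, h2, h3⟩
    exact ⟨X, ⟨h1, h2⟩, h3⟩
  · rintro ⟨X, ⟨h1, h2⟩, h3⟩
    exact ⟨X, h1, h2, h3⟩

/-- inclusions are decided -/
theorem gg5_dec_sub [Countable ι] {A B : ι → GG P → Prop} (hA : ∀ i, Dec (A i))
    (hB : ∀ i, Dec (B i)) : Dec (fun g => ∀ i, A i g → B i g) :=
  dec_all fun i => (hA i).imp (hB i)

/-- without the restriction to the hull. PROOF. If `(X, c) ∈ 𝓕`, `c ∈ g` there is such a pair in the hull with the same value: the sets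
`{p | p forces ev X = ev X' for some (X', c') ∈ 𝓕, p ≤ c'}` ... only the direction used: for `X` in the hull. -/
theorem live_of_has {𝓕 : FN ι P} {g : GG P} {X : ι → Set P} {c : P} (hX : g.has X)
    (h : (X, c) ∈ 𝓕) (hc : c ∈ g) : Live 𝓕 g X := ⟨hX, c, h, hc⟩

theorem dec_dir [Countable ι] (𝓕 : FN ι P) : Dec (fun g => Dir 𝓕 g) := by
  have h1 : Dec (fun g => ∃ X, Live 𝓕 g X ∧ True) := dec_exLive 𝓕 fun X => dec_const True
  have h2 : ∀ X Y : ι → Set P, Dec (fun g => ∃ Z, Live 𝓕 g Z ∧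
      ∀ i, i ∈ ev Z g → (i ∈ ev X g ∧ i ∈ ev Y g)) := fun X Y =>
    dec_exLive 𝓕 fun Z => gg5_dec_sub (fun i => dec_ev Z i) fun i => (dec_ev X i).and (dec_ev Y i)
  have h3 : Dec (fun g => ∃ X, Live 𝓕 g X ∧ ∃ Y, Live 𝓕 g Y ∧ ¬ ∃ Z, Live 𝓕 g Z ∧
      ∀ i, i ∈ ev Z g → (i ∈ ev X g ∧ i ∈ ev Y g)) :=
    dec_exLive 𝓕 fun X => dec_exLive 𝓕 fun Y => (h2 X Y).not
  refine (h1.and h3.not).congr (Filter.Eventually.of_forall fun g => ?_)
  constructor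
  · rintro ⟨⟨X, hX, _⟩, h⟩
    refine ⟨⟨X, hX⟩, fun X Y hX hY => ?_⟩
    by_contra hcon
    exact h ⟨X, hX, Y, hY, fun h' => hcon h'⟩
  · rintro ⟨⟨X, hX⟩, h⟩
    refine ⟨⟨X, hX, trivial⟩, ?_⟩
    rintro ⟨X, hX, Y, hY, hZ⟩
    exact hZ (h X Y hX hY)

theorem dec_memEvF [Countable ι] (𝓕 : FN ι P) {T : ι → GG P → Prop} (h : ∀ i, Dec (T i)) :
    Dec (fun g => Dir 𝓕 g ∧ {i | T i g} ∈ evF 𝓕 g) := by
  have h1 : Dec (fun g => ∃ X, Live 𝓕 g X ∧ ∀ i, i ∈ ev X g → T i g) :=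
    dec_exLive 𝓕 fun X => gg5_dec_sub (fun i => dec_ev X i) h
  refine ((dec_dir 𝓕).and h1).congr (Filter.Eventually.of_forall fun g => ?_)
  constructor
  · rintro ⟨h2, X, hX, h3⟩
    exact ⟨h2, (mem_evF h2).2 ⟨X, hX, h3⟩⟩
  · rintro ⟨h2, h3⟩
    obtain ⟨X, hX, h4⟩ := (mem_evF h2).1 h3
    exact ⟨h2, X, hX, h4⟩

variable [∀ 𝔐 : HM.{u + 1}, Cod 𝔐 ι] [BL.{u + 1} ι]

/-- the image of a shallow name under the code -/
def gg5_push (X : ι → Set P) : ℕ → Set P := fun n => {c | ∃ i, BL.code.{u + 1} i = n ∧ c ∈ X i}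

theorem gg5_ev_push (X : ι → Set P) (g : GG P) :
    ev (gg5_push X) g = BL.code.{u + 1} '' ev X g := by
  ext n
  constructor
  · rintro ⟨c, ⟨i, hi, hc⟩, hg⟩
    exact ⟨i, ⟨c, hc, hg⟩, hi⟩
  · rintro ⟨i, ⟨c, hc, hg⟩, rfl⟩
    exact ⟨c, ⟨i, rfl, hc⟩, hg⟩

/-- the code of an internal set of natural numbers which is the value of a name of the hull -/
theorem gg5_code {g : GG P} {Z : ℕ → Set P} (hZ : relName Z ∈ g.gen.N) (R : ISet g.M ℕ) :
    Cod.c (𝔐 := g.M) R = g.el (relName Z) hZ ↔ R.1 = ev Z g := by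
  have h1 : ∀ x : g.M.M, g.M.E x (g.el (relName Z) hZ) ↔ ∃ n ∈ ev Z g, x = g.M.nu n := by
    intro x
    refine (mem_relName g.rich hZ x).trans ?_
    constructor
    · rintro ⟨n, ⟨k, c, hc, hk⟩, hx⟩
      exact ⟨n, ⟨c, hc, k, hk⟩, hx⟩
    · rintro ⟨n, ⟨c, hc, k, hk⟩, hx⟩
      exact ⟨n, ⟨k, c, hc, hk⟩, hx⟩
  have h2 : ∀ x : g.M.M, g.M.E x (Cod.c (𝔐 := g.M) R) ↔ ∃ n, x = g.M.nu n ∧ n ∈ R.1 :=
    fun x => mem_code R x
  constructor
  · intro h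
    ext n
    have h3 := h1 (g.M.nu n)
    rw [← h, h2] at h3
    constructor
    · intro hn
      obtain ⟨m, hm, hmn⟩ := h3.1 ⟨n, rfl, hn⟩
      rw [g.M.nu_inj hmn]
      exact hm
    · intro hn
      obtain ⟨m, hmn, hm⟩ := h3.2 ⟨n, hn, rfl⟩
      rw [g.M.nu_inj hmn]
      exact hm
  · intro h
    apply ext g.M.zfc
    intro x
    rw [h1, h2, h]
    constructor
    · rintro ⟨n, hn, hx⟩
      exact ⟨n, hx, hn⟩
    · rintro ⟨n, hx, hn⟩
      exact ⟨n, hn, hx⟩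

/-- the images of the values of the shallow names of the hull are internal -/
theorem gg5_pushSet : ∀ᶠ g in GC P, ∀ X : ι → Set P, g.has X →
    ∃ R : ISet g.M ℕ, R.1 = BL.code.{u + 1} '' ev X g := by
  filter_upwards [int_ev (P := P) (ι := ℕ), GC_op (P := P) (gg5_push (P := P) (ι := ι))]
    with g h1 h2 X hX
  refine ⟨⟨BL.code.{u + 1} '' ev X g, ?_⟩, rfl⟩
  rw [← gg5_ev_push]
  exact h1 _ (h2 X hX)

/-- the name of the set of the codes of the live members -/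
noncomputable def gg5_name (𝓕 : FN ι P) : Name P :=
  Name.mk 𝓕 (fun q => relName (gg5_push q.1.1)) (fun q => q.1.2)

/-- the witness set of a name -/
def gg5_W (𝓕 : FN ι P) (x : Name P) (p : P) (X : ι → Set P) : Prop :=
  ∃ c, (X, c) ∈ 𝓕 ∧ p ≤ c ∧ feq x (relName (gg5_push X)) p

open Classical in
/-- choice of a witness -/
noncomputable def gg5_F (𝓕 : FN ι P) (x : Name P) (p : P) : ι → Set P :=
  if h : ∃ X, gg5_W 𝓕 x p X then h.choose else fun _ => ∅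

theorem gg5_wit (𝓕 : FN ι P) : ∀ᶠ g in GC P, ∀ x ∈ g.gen.N,
    (∃ n X, gg5_W 𝓕 x (g.gen.G n) X) → ∃ n X, g.has X ∧ gg5_W 𝓕 x (g.gen.G n) X := by
  refine GC_normal fun x => ?_
  have hD : ∀ p, ∃ q ≤ p, q ∈ {q : P | (∃ X, gg5_W 𝓕 x q X) ∨ ∀ r ≤ q, ¬ ∃ X, gg5_W 𝓕 x r X} := by
    intro p
    by_cases h : ∃ q ≤ p, ∃ X, gg5_W 𝓕 x q X
    · obtain ⟨q, hq, h⟩ := h
      exact ⟨q, hq, Or.inl h⟩
    · exact ⟨p, le_rfl, Or.inr fun r hr hX => h ⟨r, hr, hX⟩⟩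
  have hDo : ∀ p ∈ {q : P | (∃ X, gg5_W 𝓕 x q X) ∨ ∀ r ≤ q, ¬ ∃ X, gg5_W 𝓕 x r X}, ∀ q ≤ p,
      q ∈ {q : P | (∃ X, gg5_W 𝓕 x q X) ∨ ∀ r ≤ q, ¬ ∃ X, gg5_W 𝓕 x r X} := by
    rintro p (⟨X, c, hc, hn, hx⟩ | hp) q hq
    · exact Or.inl ⟨X, c, hc, hq.trans hn, feq_mono hx hq⟩
    · exact Or.inr fun r hr => hp r (hr.trans hq)
  filter_upwards [GC_dense hD hDo, GC_op (gg5_F 𝓕 x)] with g h1 h2
  rintro ⟨n, X, c, hc, hn, hx⟩
  obtain ⟨m, hm⟩ := h1
  rcases hm with hm | hm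
  · refine ⟨m, gg5_F 𝓕 x (g.gen.G m), h2 _ (g.cond m), ?_⟩
    have h3 : gg5_F 𝓕 x (g.gen.G m) = hm.choose := dif_pos hm
    rw [h3]
    exact hm.choose_spec
  · exfalso
    refine hm _ (g.gen.anti (le_max_left m n)) ⟨X, c, hc, ?_, ?_⟩
    · exact (g.gen.anti (le_max_right m n)).trans hn
    · exact feq_mono hx (g.gen.anti (le_max_right m n))

/-- the collection of the codes of the live members is internal -/
theorem gg5_liveSets (𝓕 : FN ι P) : ∀ᶠ g in GC P, ∃ 𝒟 : ISet g.M (ISet g.M ℕ),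
    ∀ R : ISet g.M ℕ, R ∈ 𝒟.1 ↔ ∃ X, Live 𝓕 g X ∧ R.1 = BL.code.{u + 1} '' ev X g := by
  filter_upwards [gg5_wit 𝓕, GC_name (gg5_name 𝓕), GC_opH (P := P)
    (fun X : ι → Set P => relName (gg5_push X))] with g h1 h2 h3
  refine ⟨⟨{R | g.M.E (Cod.c (𝔐 := g.M) R) (g.el _ h2)}, ⟨⟨g.el _ h2, fun R => Iff.rfl⟩⟩⟩,
    fun R => ?_⟩
  show g.M.E (Cod.c (𝔐 := g.M) R) (g.el _ h2) ↔ _
  constructor
  · intro hR
    obtain ⟨x, hx⟩ := g.gen.exists_rep (Cod.c (𝔐 := g.M) R)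
    have hR' : g.gen.E (g.gen.cls x) (g.gen.cls ⟨gg5_name 𝓕, h2⟩) := by
      rw [hx]
      exact hR
    obtain ⟨n, j, hj1, hj2⟩ := g.rich.split x.1 x.2 _ h2 hR'
    obtain ⟨m, X, hX, c, hc, hm, hf⟩ := h1 x.1 x.2 ⟨n, j.1.1, j.1.2, j.2, hj1, hj2⟩
    refine ⟨X, ⟨hX, c, hc, m, hm⟩, ?_⟩
    rw [← gg5_ev_push, ← gg5_code (h3 X hX), ← hx]
    exact (g.gen.cls_eq).2 ⟨m, hf⟩
  · rintro ⟨X, ⟨hX, c, hc, n, hn⟩, hR⟩
    rw [← gg5_ev_push, ← gg5_code (h3 X hX)] at hR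
    rw [hR]
    exact ⟨n, fmem_nm (gg5_name 𝓕) ⟨(X, c), hc⟩ hn⟩

/-- PROOF. `gen`: by `int_ev`. `def'`: the collection of the internal `S` with `ev X g ⊆ S` for a live `X` is defined from the element of the model named by
`{(a name of ev X as an element of the coding of ISet, c) | (X, c) ∈ 𝓕}`: for `ι = ℕ` this is `relName X` up to the intersection with the codes; in general use a name of the set of the codes
`nu (BL.code i)`, `i ∈ ev X g`, and the internal bijection `BL.code`. -/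
theorem evF_isIFil (𝓕 : FN ι P) : ∀ᶠ g in GC P, Dir 𝓕 g → IsIFil g.M (evF 𝓕 g) := by
  filter_upwards [int_ev (P := P) (ι := ι), gg5_liveSets (P := P) (ι := ι) 𝓕,
    gg5_pushSet (P := P) (ι := ι)] with g h1 h2 h3 hD
  refine ⟨fun S hS => ?_, ?_⟩
  · obtain ⟨X, hX, hXS⟩ := (mem_evF hD).1 hS
    exact ⟨ev X g, (mem_evF hD).2 ⟨X, hX, subset_rfl⟩, h1 X hX.1, hXS⟩
  · obtain ⟨𝒟, h𝒟⟩ := h2
    have h4 : Int g.M (fun S : ISet g.M ι => ∃ R : ISet g.M ℕ, R ∈ 𝒟.1 ∧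
        ∀ i : ι, BL.code.{u + 1} i ∈ R.1 → i ∈ S.1) := by
      refine int_ex (int_and ?_ (int_all (int_imp ?_ ?_)))
      · exact int_memC 𝒟.2 (intF_snd' intF_id)
      · exact int_memF (intF_comp (BL.int g.M) (intF_snd' intF_id)) (intF_snd' (intF_fst' intF_id))
      · exact int_memF (intF_snd' intF_id) (intF_fst' (intF_fst' intF_id))
    refine int_congr (fun S => ?_) h4
    rw [mem_evF hD]
    constructor
    · rintro ⟨R, hR, hRS⟩
      obtain ⟨X, hX, hRX⟩ := (h𝒟 R).1 hR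
      refine ⟨X, hX, fun i hi => hRS i ?_⟩
      rw [hRX]
      exact ⟨i, hi, rfl⟩
    · rintro ⟨X, hX, hXS⟩
      obtain ⟨R, hR⟩ := h3 X hX.1
      refine ⟨R, (h𝒟 R).2 ⟨X, hX, hR⟩, fun i hi => hXS ?_⟩
      rw [hR] at hi
      obtain ⟨j, hj, hij⟩ := hi
      rw [← BL.inj hij]
      exact hj

theorem evF_isIFilH {Y : Type u} (𝓕 : Y → FN ι P) :
    ∀ᶠ g in GC P, ∀ y, g.has y → Dir (𝓕 y) g → IsIFil g.M (evF (𝓕 y) g) :=
  GC_normalH fun y => evF_isIFil (𝓕 y)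

/-- the filter name given by a name of the collection of the codes -/
def gg5_fn (y : Name P) : FN ι P := {q | fmem (relName (gg5_push q.1)) y q.2}

/-- every internal filter has a name. PROOF. Let `x` be a name of the element of the model that gives `IsIFil.def'` (the codes of the internal sets in the
filter). Put `𝓕 = {(X, c) | c forces that the code of ev X is in x}`: the property `ev X ∈ F` of `g` is equivalent to a property decided by conditions (`dec_E` for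
operations on names); `X` live iff `ev X g ∈ F` (for `X` in the hull), and every internal set is `ev X g` with `X` in the hull (`rep_ev`). -/
theorem rep_fil : ∀ᶠ g in GC P, ∀ F : Filter ι, IsIFil g.M F →
    ∃ 𝓕 : FN ι P, g.has 𝓕 ∧ Dir 𝓕 g ∧ evF 𝓕 g = F ∧
      ∀ X : ι → Set P, g.has X → (Live 𝓕 g X ↔ ev X g ∈ F) := by
  filter_upwards [int_ev (P := P) (ι := ι), rep_ev (P := P) (ι := ι),
    gg5_pushSet (P := P) (ι := ι), GC_opN (P := P) (gg5_fn (ι := ι)),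
    GC_opH (P := P) (fun X : ι → Set P => relName (gg5_push X)),
    GC_has (P := P) (fun _ : ι => ({⊤} : Set P))] with g h1 h2 h3 h4 h5 h6 F hF
  have h7 : Int g.M (fun R : ISet g.M ℕ => ∀ᶠ i : ι in F, BL.code.{u + 1} i ∈ R.1) :=
    int_eventually (α := ISet g.M ℕ) (β := ι) hF (R := fun R i => BL.code.{u + 1} i ∈ R.1)
      (int_memF (intF_comp (BL.int g.M) (intF_snd' intF_id)) (intF_fst' intF_id))
  obtain ⟨⟨s, hs⟩⟩ := h7
  obtain ⟨y, hy⟩ := g.gen.exists_rep s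
  have h8 : ∀ X : ι → Set P, g.has X → (Live (gg5_fn y.1) g X ↔ ev X g ∈ F) := by
    intro X hX
    obtain ⟨R, hR⟩ := h3 X hX
    have h9 : Cod.c (𝔐 := g.M) R = g.el (relName (gg5_push X)) (h5 X hX) := by
      rw [gg5_code, gg5_ev_push]
      exact hR
    have h10 : g.M.E (Cod.c (𝔐 := g.M) R) s ↔ ev X g ∈ F := by
      rw [hs R]
      have h11 : {i : ι | BL.code.{u + 1} i ∈ R.1} = ev X g := by
        ext i
        rw [hR]
        exact (BL.inj.{u + 1} (α := ι)).mem_set_image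
      show {i : ι | BL.code.{u + 1} i ∈ R.1} ∈ F ↔ _
      rw [h11]
    rw [← h10, h9, ← hy]
    constructor
    · rintro ⟨_, c, hc, n, hn⟩
      exact ⟨n, fmem_mono hc hn⟩
    · rintro ⟨n, hn⟩
      exact ⟨hX, g.gen.G n, hn, n, le_rfl⟩
  have h9 : Dir (gg5_fn (ι := ι) y.1) g := by
    constructor
    · refine ⟨fun _ => {⊤}, (h8 _ h6).2 ?_⟩
      have h10 : ev (fun _ : ι => ({⊤} : Set P)) g = Set.univ := by
        ext i
        constructor
        · intro _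
          trivial
        · intro _
          exact ⟨⊤, rfl, top_mem g⟩
      rw [h10]
      exact Filter.univ_mem
    · intro X Y hX hY
      have hXF := (h8 X hX.1).1 hX
      have hYF := (h8 Y hY.1).1 hY
      obtain ⟨Z, hZ, hZe⟩ := h2 (ev X g ∩ ev Y g) (int_and (h1 X hX.1) (h1 Y hY.1))
      refine ⟨Z, (h8 Z hZ).2 ?_, hZe.subset⟩
      rw [hZe]
      exact Filter.inter_mem hXF hYF
  refine ⟨gg5_fn y.1, h4 y.1 y.2, h9, ?_, h8⟩
  ext S
  rw [mem_evF h9]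
  constructor
  · rintro ⟨X, hX, hXS⟩
    exact Filter.mem_of_superset ((h8 X hX.1).1 hX) hXS
  · intro hS
    obtain ⟨T, hT, hTi, hTS⟩ := hF.gen S hS
    obtain ⟨X, hX, hXe⟩ := h2 T hTi
    refine ⟨X, (h8 X hX).2 ?_, ?_⟩
    · rw [hXe]
      exact hT
    · rw [hXe]
      exact hTS

end Pool.Agent.GGen
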