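import Pool.Agent.Lib_GG.Ground
import Pool.Agent.Lib_GG.Filt

/-!
# Piece GGMIX: mixing of shallow names, quantifiers over internal functions
-/

set_option autoImplicit false

namespace Pool.Agent.GGen

open Forcing Inner Name HMod

universe u

variable {P : Type u} [Preorder P] [OrderTop P]

/-- PROOF. Let `D` be the open set of the `r ≤ p` such that `Fo r (T X)` for some `X`; it is dense below `p`; take a maximal antichain `A ⊆ D` and `X a` for `a ∈ A`. Let
`X i = {c | ∃ a ∈ A, c ≤ a ∧ ∃ c' ∈ X a i, c ≤ c'}`. If `a ∈ A`, `a ∈ g` then `ev X g = ev (X a) g` (two elements of `A` in `g` are equal). Club many `g ∋ p` contain an element of `A` of the hull (`GC_denseBelow'`), and `T (X a) g` for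
the `a ∈ A` of the hull with `a ∈ g` (`GC_fo`, normality). -/
theorem fo_mix {ι : Type*} {p : P} {T : (ι → Set P) → GG P → Prop}
    (hT : ∀ X X' g, ev X g = ev X' g → T X g → T X' g)
    (h : ∀ q ≤ p, ∃ r ≤ q, ∃ X, Fo r (T X)) : ∃ X, Fo p (T X) := by
  classical
  -- a choice of names
  let XX : P → ι → Set P := fun r => if h : ∃ X, Fo r (T X) then h.choose else fun _ => ∅
  have hXX : ∀ r, (∃ X, Fo r (T X)) → Fo r (T (XX r)) := by
    intro r hr
    have h1 : XX r = hr.choose := dif_pos hr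
    rw [h1]
    exact hr.choose_spec
  -- `a` is the first element of the dense set compatible with `c`, and above `c`
  let W : P → P → Prop := fun c a => (∃ X, Fo a (T X)) ∧ c ≤ a ∧
    ∀ b, (∃ X, Fo b (T X)) → WellOrderingRel b a → ∀ s ≤ c, ¬ s ≤ b
  have hWm : ∀ c c' a, c' ≤ c → W c a → W c' a := by
    rintro c c' a hc ⟨h1, h2, h3⟩
    exact ⟨h1, hc.trans h2, fun b hb hba s hs => h3 b hb hba s (hs.trans hc)⟩
  have hWu : ∀ c a a', W c a → W c a' → a = a' := by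
    rintro c a a' ⟨h1, h2, h3⟩ ⟨h1', h2', h3'⟩
    rcases trichotomous_of (WellOrderingRel (α := P)) a a' with h4 | h4 | h4
    · exact absurd h2 (h3' a h1 h4 c le_rfl)
    · exact h4
    · exact absurd h2' (h3 a' h1' h4 c le_rfl)
  have hWd : ∀ q ≤ p, ∃ r ≤ q, ∃ a, W r a := by
    intro q hq
    have h1 : ∃ a : P, (∃ X, Fo a (T X)) ∧ ∃ s ≤ q, s ≤ a := by
      obtain ⟨r, hr, X, hX⟩ := h q hq
      exact ⟨r, ⟨X, hX⟩, r, hr, le_rfl⟩
    have hwf := (WellOrderingRel.isWellOrder (α := P)).wf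
    let S : Set P := {a | (∃ X, Fo a (T X)) ∧ ∃ s ≤ q, s ≤ a}
    have hS : S.Nonempty := h1
    obtain ⟨h2, s, hs, hsa⟩ := hwf.min_mem S hS
    refine ⟨s, hs, hwf.min S hS, h2, hsa, fun b hb hba t ht htb => ?_⟩
    exact hwf.not_lt_min S (show b ∈ S from ⟨hb, t, ht.trans hs, htb⟩) hba
  refine ⟨fun i => {c | ∃ a, W c a ∧ ∃ c' ∈ XX a i, c ≤ c'}, ?_⟩
  have h1 : ∀ᶠ g in GC P, ∀ c : P, g.has c → ∀ a, W c a → c ∈ g → T (XX a) g := by
    refine GC_normalH (T := fun (c : P) g => ∀ a, W c a → c ∈ g → T (XX a) g) fun c => ?_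
    by_cases hc : ∃ a, W c a
    · obtain ⟨a, ha⟩ := hc
      filter_upwards [(hXX a ha.1).mono ha.2.1] with g hg a' ha'
      rw [hWu c a' a ha' ha]
      exact hg
    · exact Filter.Eventually.of_forall fun g a ha => absurd ⟨a, ha⟩ hc
  filter_upwards [h1, GC_denseBelow (D := {c : P | ∃ a, W c a})
    (fun c ⟨a, ha⟩ c' hc' => ⟨a, hWm c c' a hc' ha⟩) hWd] with g h2 h3 hp
  obtain ⟨n, a, ha⟩ := h3 hp
  refine hT (XX a) _ g ?_ (h2 _ (g.cond n) a ha (G_mem g n))
  ext i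
  constructor
  · rintro ⟨c', hc', hg⟩
    obtain ⟨r, hr, _, hr1, hr2⟩ := mem_common (G_mem g n) hg
    exact ⟨r, ⟨a, hWm _ _ a hr1 ha, c', hc', hr2⟩, hr⟩
  · rintro ⟨c, ⟨a', ha', c', hc', hcc'⟩, hg⟩
    obtain ⟨r, hr, _, hr1, hr2⟩ := mem_common (G_mem g n) hg
    have h4 : a' = a := hWu r a' a (hWm _ _ _ hr2 ha') (hWm _ _ _ hr1 ha)
    rw [h4] at hc'
    exact ⟨c', hc', mem_up hg hcc'⟩

section base
variable {ι ι' : Type} [∀ 𝔐 : HM.{u + 1}, Cod 𝔐 ι] [BL.{u + 1} ι]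
  [∀ 𝔐 : HM.{u + 1}, Cod 𝔐 ι'] [BL.{u + 1} ι']

/-- quantification over the internal subsets of a base type. PROOF. `rep_ev`, `int_ev`: equivalent, for club many `g`, to `∃ X, has X ∧ T (ev X g) g`. -/
theorem dec_exSet {T : Set ι → GG P → Prop} (h : ∀ X : ι → Set P, Dec (fun g => T (ev X g) g)) :
    Dec (fun g => ∃ S : Set ι, Int g.M (fun i => i ∈ S) ∧ T S g) := by
  refine (dec_exH h).congr ?_
  filter_upwards [int_ev (P := P) (ι := ι), rep_ev (P := P) (ι := ι)] with g h1 h2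
  constructor
  · rintro ⟨X, hX, hTX⟩
    exact ⟨ev X g, h1 X hX, hTX⟩
  · rintro ⟨S, hS, hTS⟩
    obtain ⟨X, hX, rfl⟩ := h2 S hS
    exact ⟨X, hX, hTS⟩

theorem dec_allSet {T : Set ι → GG P → Prop} (h : ∀ X : ι → Set P, Dec (fun g => T (ev X g) g)) :
    Dec (fun g => ∀ S : Set ι, Int g.M (fun i => i ∈ S) → T S g) := by
  refine (dec_exSet (T := fun S g => ¬ T S g) fun X => (h X).not).not.congr ?_
  filter_upwards with g
  constructor
  · intro h1 S hS
    by_contra h2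
    exact h1 ⟨S, hS, h2⟩
  · rintro h1 ⟨S, hS, h2⟩
    exact h2 (h1 S hS)

/-- quantification over the internal functions between base types -/
theorem dec_exFun {T : (ι → ι') → GG P → Prop}
    (h : ∀ X : ι × ι' → Set P, Dec (fun g => ∃ f : ι → ι', ev X g = {q | f q.1 = q.2} ∧ T f g)) :
    Dec (fun g => ∃ f : ι → ι', IntF g.M f ∧ T f g) := by
  refine (dec_exH h).congr ?_
  filter_upwards [int_ev (P := P) (ι := ι × ι'), rep_fun (P := P) (ι := ι) (ι' := ι')]
    with g h1 h2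
  constructor
  · rintro ⟨X, hX, f, hf, hTf⟩
    refine ⟨f, ⟨?_⟩, hTf⟩
    have h3 := h1 X hX
    rw [hf] at h3
    exact h3
  · rintro ⟨f, hf, hTf⟩
    obtain ⟨X, hX, hXf⟩ := h2 f hf
    exact ⟨X, hX, f, hXf, hTf⟩

theorem dec_allFun {T : (ι → ι') → GG P → Prop}
    (h : ∀ X : ι × ι' → Set P, Dec (fun g => ∃ f : ι → ι', ev X g = {q | f q.1 = q.2} ∧ ¬ T f g)) :
    Dec (fun g => ∀ f : ι → ι', IntF g.M f → T f g) := by
  refine (dec_exFun (T := fun f g => ¬ T f g) h).not.congr ?_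
  filter_upwards with g
  constructor
  · intro h1 f hf
    by_contra h2
    exact h1 ⟨f, hf, h2⟩
  · rintro h1 ⟨f, hf, h2⟩
    exact h2 (h1 f hf)

/-- being the graph of a function is decided -/
theorem dec_isFun (X : ι × ι' → Set P) :
    Dec (fun g => ∃ f : ι → ι', ev X g = {q | f q.1 = q.2}) := by
  have hι : Countable ι := (BL.inj.{u + 1} (α := ι)).countable
  have hι' : Countable ι' := (BL.inj.{u + 1} (α := ι')).countable
  have h1 : Dec (fun g => (∀ i, ∃ i', (i, i') ∈ ev X g) ∧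
      ∀ i i' i'', (i, i') ∈ ev X g → (i, i'') ∈ ev X g → i' = i'') :=
    (dec_all fun i => dec_ex fun i' => dec_ev X (i, i')).and
      (dec_all fun i => dec_all fun i' => dec_all fun i'' =>
        (dec_ev X (i, i')).imp ((dec_ev X (i, i'')).imp (dec_const _)))
  refine h1.congr ?_
  filter_upwards with g
  constructor
  · rintro ⟨h2, h3⟩
    choose f hf using h2
    refine ⟨f, ?_⟩
    ext ⟨i, i'⟩
    constructor
    · intro h4
      exact h3 i _ _ (hf i) h4
    · intro h4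
      have h5 : f i = i' := h4
      rw [← h5]
      exact hf i
  · rintro ⟨f, hf⟩
    rw [hf]
    refine ⟨fun i => ⟨f i, rfl⟩, fun i i' i'' h2 h3 => ?_⟩
    have h2' : f i = i' := h2
    have h3' : f i = i'' := h3
    exact h2'.symm.trans h3'

/-- the value of a function given by a shallow name, in a decided property: if `T i' g` is decided for every value. -/
theorem dec_evalFun (X : ι × ι' → Set P) (i : ι) {T : ι' → GG P → Prop} (h : ∀ i', Dec (T i')) :
    Dec (fun g => ∃ f : ι → ι', ev X g = {q | f q.1 = q.2} ∧ T (f i) g) := by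
  have hι' : Countable ι' := (BL.inj.{u + 1} (α := ι')).countable
  have h1 : Dec (fun g => ∃ i', (i, i') ∈ ev X g ∧ T i' g) :=
    dec_ex fun i' => (dec_ev X (i, i')).and (h i')
  refine ((dec_isFun X).and h1).congr ?_
  filter_upwards with g
  constructor
  · rintro ⟨⟨f, hf⟩, i', h2, h3⟩
    refine ⟨f, hf, ?_⟩
    rw [hf] at h2
    have h4 : f i = i' := h2
    rw [h4]
    exact h3
  · rintro ⟨f, hf, h2⟩
    refine ⟨⟨f, hf⟩, f i, ?_, h2⟩
    rw [hf]
    exact rfl

/-- decided properties of the graph of a function. PROOF. `∃ f, ev X g = graph f ∧ T f g` is equivalent to: `ev X g` is the graph of a function and `T (F (ev X g)) g` where `F` recovers the function. -/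
theorem dec_graph (X : ι × ι' → Set P) {T : (ι → ι') → GG P → Prop} {T' : GG P → Prop}
    (h' : Dec T') (h : ∀ g f, ev X g = {q | f q.1 = q.2} → (T f g ↔ T' g)) :
    Dec (fun g => ∃ f : ι → ι', ev X g = {q | f q.1 = q.2} ∧ T f g) := by
  refine ((dec_isFun X).and h').congr ?_
  filter_upwards with g
  constructor
  · rintro ⟨⟨f, hf⟩, h2⟩
    exact ⟨f, hf, (h g f hf).2 h2⟩
  · rintro ⟨f, hf, h2⟩
    exact ⟨⟨f, hf⟩, (h g f hf).1 h2⟩

end base

/-- a decided property of the sets in a filter: `ev X g ∈ evF 𝓕 g` -/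
theorem dec_mem_evF {ι : Type} [Countable ι] (𝓕 : FN ι P) (X : ι → Set P)
    (h : ∀ᶠ g in GC P, Dir 𝓕 g) : Dec (fun g => ev X g ∈ evF 𝓕 g) := by
  refine (dec_memEvF 𝓕 (T := fun i g => i ∈ ev X g) (dec_ev X)).congr ?_
  filter_upwards [h] with g h1
  exact ⟨fun h2 => h2.2, fun h2 => ⟨h1, h2⟩⟩

theorem fo_dir_dec {ι : Type} [Countable ι] (𝓕 : FN ι P) {T : ι → GG P → Prop}
    (h : ∀ i, Dec (T i)) {p : P} (hp : Fo p (fun g => Dir 𝓕 g)) :
    ∃ q ≤ p, Fo q (fun g => {i | T i g} ∈ evF 𝓕 g) ∨ Fo q (fun g => {i | T i g} ∉ evF 𝓕 g) := by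
  obtain ⟨q, hq, h1 | h1⟩ := dec_memEvF 𝓕 h p
  · refine ⟨q, hq, Or.inl ?_⟩
    filter_upwards [h1] with g h2 hg
    exact (h2 hg).2
  · refine ⟨q, hq, Or.inr ?_⟩
    filter_upwards [h1, hp.mono hq] with g h2 h3 hg h4
    exact h2 hg ⟨h3 hg, h4⟩

end Pool.Agent.GGen
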