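import Pool.Agent.Lib_GG.Defs

/-!
# Piece GG1: the club filter
-/

set_option autoImplicit false

namespace Pool.Agent.GGen

open Forcing Inner Name HMod

universe u

variable {P : Type u} [Preorder P] [OrderTop P]

/-! ### check names -/

theorem chk_eq {Y : Type u} (y : Y) : (chk y : Name P) =
    Name.mk {y' : Y // WellOrderingRel y' y} (fun y' => chk y'.1) (fun _ => ⊤) := by
  unfold chk
  rw [WellFounded.fix_eq]

/-- PROOF. By well-founded induction on `y` (for the relation `WellOrderingRel`): if `y' ≠ y`, one of them is smaller, say `y' < y`. If `p` forces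
`chk y = chk y'` then, as `chk y'` is listed in `chk y`, some `r ≤ p` forces `chk y' = chk y''` with `y'' < y'`, contradiction to the
induction hypothesis (induct on the smaller of the two elements). -/
theorem feq_chk {Y : Type u} {y y' : Y} {p : P} : feq (chk y : Name P) (chk y') p ↔ y = y' := by
  constructor
  · have key : ∀ y y' : Y, ∀ p : P, feq (chk y : Name P) (chk y') p → y = y' := by
      intro y
      induction y using (WellOrderingRel.isWellOrder (α := Y)).wf.induction with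
      | _ y ih =>
        intro y' p h
        rcases trichotomous_of (WellOrderingRel (α := Y)) y y' with h1 | h1 | h1
        · exfalso
          rw [chk_eq y, chk_eq y', feq_def] at h
          obtain ⟨r, _, i, _, h2⟩ := h.2 ⟨y, h1⟩ p le_rfl le_top
          have h3 := ih i.1 i.2 y r h2
          have h4 := i.2
          rw [h3] at h4
          exact irrefl_of (WellOrderingRel (α := Y)) y h4
        · exact h1
        · exfalso
          rw [chk_eq y, chk_eq y', feq_def] at h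
          obtain ⟨r, _, i, _, h2⟩ := h.1 ⟨y', h1⟩ p le_rfl le_top
          have h3 := ih y' h1 i.1 r h2
          have h4 := i.2
          rw [← h3] at h4
          exact irrefl_of (WellOrderingRel (α := Y)) y' h4
    exact key y y' p
  · rintro rfl
    exact feq_refl _ _

theorem chk_inj {Y : Type u} : Function.Injective (chk : Y → Name P) := by
  intro y y' h
  have h1 : feq (chk y : Name P) (chk y') (⊤ : P) := by
    rw [h]
    exact feq_refl _ _
  exact feq_chk.1 h1

/-! ### the filter `g` -/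

theorem mem_g_iff {g : GG P} {p : P} : p ∈ g ↔ ∃ n, g.gen.G n ≤ p := Iff.rfl

theorem mem_up {g : GG P} {p q : P} (h : p ∈ g) (hq : p ≤ q) : q ∈ g := by
  obtain ⟨n, hn⟩ := h
  exact ⟨n, hn.trans hq⟩

theorem G_mem (g : GG P) (n : ℕ) : g.gen.G n ∈ g := ⟨n, le_rfl⟩

theorem mem_common {g : GG P} {p q : P} (hp : p ∈ g) (hq : q ∈ g) :
    ∃ r, r ∈ g ∧ g.has r ∧ r ≤ p ∧ r ≤ q := by
  obtain ⟨n, hn⟩ := hp
  obtain ⟨m, hm⟩ := hq
  exact ⟨g.gen.G (max n m), ⟨max n m, le_rfl⟩, g.cond _, (g.gen.anti (le_max_left n m)).trans hn,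
    (g.gen.anti (le_max_right n m)).trans hm⟩

theorem top_mem (g : GG P) : (⊤ : P) ∈ g := ⟨0, le_top⟩

/-! ### the club filter -/

/-- assignment given by a list -/
private def ev' (l : List (Name P)) : ℕ → Name P := fun k => l.getD k omegaName

/-- PROOF. Code pairs of indices: `ops (Nat.pair i k) l = ops_i k l`. -/
instance : CountableInterFilter (GC P) := by
  refine ⟨fun S hS h => ?_⟩
  rcases S.eq_empty_or_nonempty with rfl | hne
  · rw [Set.sInter_empty]
    exact Filter.univ_mem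
  · obtain ⟨e, rfl⟩ := hS.exists_eq_range hne
    have h' : ∀ n, GCset (e n) := fun n => h _ ⟨n, rfl⟩
    choose ops D h1 h0 h2 using h'
    refine ⟨fun k l => ops k.unpair.1 k.unpair.2 l, fun k l => D k.unpair.1 k.unpair.2 l,
      fun k l p => h1 _ _ _ _, fun k l => h0 _ _ _, ?_⟩
    intro g h3 h4
    rintro _ ⟨n, rfl⟩
    refine h2 n g (fun k l hl => ?_) (fun k l hl => ?_)
    · have := h3 (Nat.pair n k) l hl
      simpa using this
    · have := h4 (Nat.pair n k) l hl
      simpa using this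

/-- existence. PROOF. The operations: `ops`, the witness operations of `exists_gen`, `num`, `omegaName`, `pairName`, `pgName`, and choice operations that
assign to `chk p :: l` the check name of some `q ≤ p` in `D k l` (for all the dense sets used: `D`, the decision sets of `exists_gen`, the split sets of
`exists_rich`). Let `N` be a countable closed set with `chk p₀ ∈ N` (`exists_countable_closed`); choose the sequence `G` with `G 0 = p₀`,
`G (n+1) ≤ G n` in the `n`-th dense set (list of all pairs (index, list in `N`)) using the choice operations, so that `chk (G n) ∈ N` for all `n`. The rest as in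
`exists_gen`, `exists_rich`. -/
theorem GC_exists {T : GG P → Prop} (h : ∀ᶠ g in GC P, T g) (p : P) :
    ∃ g : GG P, T g ∧ g.gen.G 0 = p := by
  classical
  obtain ⟨ops, D, hD, -, hT⟩ := h
  -- all the dense sets
  let K := (Fml ⊕ ℕ) ⊕ Unit
  let DD : K → List (Name P) → Set P := fun t l => match t with
    | Sum.inl (Sum.inl φ) => {q | Force φ (ev' l) q ∨ ∀ r ≤ q, ¬ Force φ (ev' l) r}
    | Sum.inl (Sum.inr k) => D k l
    | Sum.inr _ => {q | (∃ j, q ≤ (l.getD 1 omegaName).cd j ∧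
        feq (l.getD 0 omegaName) ((l.getD 1 omegaName).nm j) q) ∨
        ∀ r ≤ q, ¬ fmem (l.getD 0 omegaName) (l.getD 1 omegaName) r}
  have hDD : ∀ t l p, ∃ q ≤ p, q ∈ DD t l := by
    rintro ((φ | k) | _) l p
    · by_cases h : ∃ q ≤ p, Force φ (ev' l) q
      · obtain ⟨q, hq, hf⟩ := h
        exact ⟨q, hq, Or.inl hf⟩
      · push Not at h
        exact ⟨p, le_rfl, Or.inr h⟩
    · exact hD k l p
    · by_cases h : ∃ r ≤ p, fmem (l.getD 0 omegaName) (l.getD 1 omegaName) r
      · obtain ⟨r, hr, hm⟩ := h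
        obtain ⟨s, hs, j, h1, h2⟩ := hm r le_rfl
        exact ⟨s, hs.trans hr, Or.inl ⟨j, h1, h2⟩⟩
      · push Not at h
        exact ⟨p, le_rfl, Or.inr h⟩
  choose f hf1 hf2 using hDD
  -- the operations
  let O : ℕ ⊕ K → List (Name P) → Name P := fun t l => match t with
    | Sum.inl k => ops k l
    | Sum.inr t => match l with
      | [] => omegaName
      | x :: l' => if h : ∃ q : P, x = chk q then chk (f t l' h.choose) else omegaName
  obtain ⟨𝔊, hR, -, hS, hO, -⟩ := exists_rich (P := P) (ι := ℕ ⊕ K) (κ := Empty)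
    {pgName, chk p} ((Set.countable_singleton _).insert _) O (fun k => k.elim) (fun k => k.elim) p
  have hpg : (pgName : Name P) ∈ 𝔊.N := hS (Or.inl rfl)
  have hp : (chk p : Name P) ∈ 𝔊.N := hS (Or.inr rfl)
  let lv : List 𝔊.N → List (Name P) := fun l => l.map Subtype.val
  have hlv : ∀ l : List 𝔊.N, ∀ x ∈ lv l, x ∈ 𝔊.N := by
    intro l x hx
    obtain ⟨y, _, rfl⟩ := List.mem_map.1 hx
    exact y.2
  have hstep : ∀ (t : K) (l : List 𝔊.N) (q : P), (chk q : Name P) ∈ 𝔊.N →
      (chk (f t (lv l) q) : Name P) ∈ 𝔊.N := by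
    intro t l q hq
    have h1 := hO (Sum.inr t) (chk q :: lv l) (by
      intro x hx
      rcases List.mem_cons.1 hx with rfl | hx
      · exact hq
      · exact hlv l x hx)
    have h2 : ∃ q' : P, (chk q : Name P) = chk q' := ⟨q, rfl⟩
    have h3 : O (Sum.inr t) (chk q :: lv l) = chk (f t (lv l) h2.choose) := dif_pos h2
    have h4 : h2.choose = q := (chk_inj h2.choose_spec).symm
    rw [h3, h4] at h1
    exact h1
  -- the sequence
  have hNc := 𝔊.countable.to_subtype
  have hTn : Nonempty (K × List 𝔊.N) := ⟨(Sum.inr (), [])⟩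
  obtain ⟨e, he⟩ := exists_surjective_nat (K × List 𝔊.N)
  let G : ℕ → {q : P // (chk q : Name P) ∈ 𝔊.N} := fun n =>
    Nat.rec ⟨p, hp⟩ (fun n q => ⟨f (e n).1 (lv (e n).2) q.1, hstep _ _ _ q.2⟩) n
  have hG : ∀ n, (G (n + 1)).1 = f (e n).1 (lv (e n).2) (G n).1 := fun n => rfl
  have hanti : Antitone (fun n => (G n).1) :=
    antitone_nat_of_succ_le fun n => by
      change (G (n + 1)).1 ≤ (G n).1
      rw [hG]
      exact hf1 _ _ _
  have hmeet : ∀ t (l : List 𝔊.N), ∃ n, (G n).1 ∈ DD t (lv l) := by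
    intro t l
    obtain ⟨n, hn⟩ := he (t, l)
    refine ⟨n + 1, ?_⟩
    rw [hG, hn]
    exact hf2 _ _ _
  have hlift : ∀ l : List (Name P), (∀ x ∈ l, x ∈ 𝔊.N) → ∃ l' : List 𝔊.N, lv l' = l := by
    intro l hl
    induction l with
    | nil => exact ⟨[], rfl⟩
    | cons a l ih =>
      obtain ⟨l', h'⟩ := ih (fun x hx => hl x (List.mem_cons_of_mem a hx))
      refine ⟨⟨a, hl a List.mem_cons_self⟩ :: l', ?_⟩
      exact congrArg (fun t => a :: t) h'
  have hmeet' : ∀ t (l : List (Name P)), (∀ x ∈ l, x ∈ 𝔊.N) → ∃ n, (G n).1 ∈ DD t l := by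
    intro t l hl
    obtain ⟨l', rfl⟩ := hlift l hl
    exact hmeet t l'
  -- decision
  have hdec : ∀ (φ : Fml) (v : ℕ → Name P), (∀ k, v k ∈ 𝔊.N) →
      ∃ n, Force φ v (G n).1 ∨ ∀ q ≤ (G n).1, ¬ Force φ v q := by
    intro φ v hv
    have hl : ∀ x ∈ (List.range φ.bd).map v, x ∈ 𝔊.N := by
      intro x hx
      obtain ⟨k, _, rfl⟩ := List.mem_map.1 hx
      exact hv k
    have hagree : ∀ k < φ.bd, ev' ((List.range φ.bd).map v) k = v k := by
      intro k hk
      simp [ev', List.getD, hk]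
    obtain ⟨n, hn⟩ := hmeet' (Sum.inl (Sum.inl φ)) _ hl
    refine ⟨n, ?_⟩
    rcases hn with h1 | h1
    · left
      exact (force_agree hagree).1 h1
    · right
      intro q hq hf
      exact h1 q hq ((force_agree hagree).2 hf)
  let gen : Gen P := ⟨𝔊.N, fun n => (G n).1, 𝔊.countable, hanti, 𝔊.dflt, 𝔊.dflt_mem, 𝔊.wit, hdec⟩
  have hrich : Rich gen := by
    refine ⟨hR.num_mem, hR.omega_mem, hR.pair_mem, ?_⟩
    rintro x hx y hy ⟨n, hn⟩
    obtain ⟨m, hm⟩ := hmeet' (Sum.inr ()) [x, y] (by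
      intro z hz
      rcases List.mem_cons.1 hz with rfl | hz
      · exact hx
      · rcases List.mem_cons.1 hz with rfl | hz
        · exact hy
        · cases hz)
    have hm' : (∃ j, (G m).1 ≤ y.cd j ∧ feq x (y.nm j) (G m).1) ∨
        ∀ r ≤ (G m).1, ¬ fmem x y r := hm
    rcases hm' with ⟨j, h3, h4⟩ | h3
    · exact ⟨m, j, h3, h4⟩
    · exact absurd (fmem_mono hn (gen.anti (le_max_right m n))) (h3 _ (gen.anti (le_max_left m n)))
  let g : GG P := ⟨gen, hrich, hpg, fun n => (G n).2⟩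
  refine ⟨g, hT g (fun k l hl => hO (Sum.inl k) l hl) (fun k l hl => ?_), rfl⟩
  exact hmeet' (Sum.inl (Sum.inr k)) l hl

theorem GC_exists' {T : GG P → Prop} (h : ∀ᶠ g in GC P, T g) (p : P) : ∃ g : GG P, T g ∧ p ∈ g := by
  obtain ⟨g, h1, h2⟩ := GC_exists h p
  exact ⟨g, h1, 0, h2.le⟩

instance : (GC P).NeBot := by
  refine ⟨fun h => ?_⟩
  have h1 : ∀ᶠ _ in GC P, False := Filter.eventually_false_iff_eq_bot.2 h
  obtain ⟨_, h2, _⟩ := GC_exists h1 (⊤ : P)
  exact h2

/-- normality for names. PROOF. Choose `ops x`, `D x` for each `x`; take `ops k (x :: l) = ops x k l` (for `k` even, say, and for `l = []` the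
value `omegaName`). -/
theorem GC_normal {T : Name P → GG P → Prop} (h : ∀ x, ∀ᶠ g in GC P, T x g) :
    ∀ᶠ g in GC P, ∀ x ∈ g.gen.N, T x g := by
  have h' : ∀ x, GCset {g | T x g} := h
  choose ops D h1 h0 h2 using h'
  refine ⟨fun k l => match l with
    | [] => omegaName
    | x :: l' => ops x k l', fun k l => match l with
    | [] => Set.univ
    | x :: l' => D x k l', ?_, ?_, ?_⟩
  · rintro k (_ | ⟨x, l⟩) p
    · exact ⟨p, le_rfl, trivial⟩
    · exact h1 x k l p
  · rintro k (_ | ⟨x, l⟩)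
    · exact fun _ _ _ _ => trivial
    · exact h0 x k l
  · intro g h3 h4 x hx
    refine h2 x g (fun k l hl => ?_) (fun k l hl => ?_)
    · exact h3 k (x :: l) (fun z hz => by
        rcases List.mem_cons.1 hz with rfl | hz
        · exact hx
        · exact hl z hz)
    · exact h4 k (x :: l) (fun z hz => by
        rcases List.mem_cons.1 hz with rfl | hz
        · exact hx
        · exact hl z hz)

theorem GC_nameop (f : List (Name P) → Name P) :
    ∀ᶠ g in GC P, ∀ l, (∀ x ∈ l, x ∈ g.gen.N) → f l ∈ g.gen.N :=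
  ⟨fun _ l => f l, fun _ _ => Set.univ, fun _ _ p => ⟨p, le_rfl, trivial⟩,
    fun _ _ _ _ _ _ => trivial, fun _ h _ l hl => h 0 l hl⟩

theorem GC_name (x : Name P) : ∀ᶠ g in GC P, x ∈ g.gen.N :=
  (GC_nameop fun _ => x).mono fun g h => h [] (by simp)

/-- normality for ground objects: `GC_normal` for `T' x g := ∀ y, x = chk y → T y g` -/
theorem GC_normalH {Y : Type u} {T : Y → GG P → Prop} (h : ∀ y, ∀ᶠ g in GC P, T y g) :
    ∀ᶠ g in GC P, ∀ y, g.has y → T y g := by
  have h1 : ∀ᶠ g in GC P, ∀ x ∈ g.gen.N, ∀ y, x = chk y → T y g := by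
    refine GC_normal fun x => ?_
    by_cases hx : ∃ y : Y, x = chk y
    · obtain ⟨y, rfl⟩ := hx
      filter_upwards [h y] with g hg y' hy'
      rw [← chk_inj hy']
      exact hg
    · exact Filter.Eventually.of_forall fun g y hy => absurd ⟨y, hy⟩ hx
  filter_upwards [h1] with g hg y hy
  exact hg _ hy y rfl

theorem GC_has {Y : Type u} (y : Y) : ∀ᶠ g in GC P, g.has y := GC_name _

theorem GC_hasC {Y : Type u} {N : Set Y} (hN : N.Countable) : ∀ᶠ g in GC P, ∀ y ∈ N, g.has y :=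
  (eventually_countable_ball hN).2 fun y _ => GC_has y

theorem GC_hasT {Y : Type u} [Countable Y] : ∀ᶠ g in GC P, ∀ y : Y, g.has y :=
  eventually_countable_forall.2 fun y => GC_has y

theorem GC_op {Y Z : Type u} (f : Y → Z) : ∀ᶠ g in GC P, ∀ y, g.has y → g.has (f y) :=
  GC_normalH fun y => GC_has (f y)

theorem GC_op2 {Y Y' Z : Type u} (f : Y → Y' → Z) :
    ∀ᶠ g in GC P, ∀ y y', g.has y → g.has y' → g.has (f y y') := by
  have h : ∀ᶠ g in GC P, ∀ y, g.has y → ∀ y', g.has y' → g.has (f y y') :=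
    GC_normalH fun y => GC_op (f y)
  filter_upwards [h] with g hg y y' hy hy'
  exact hg y hy y' hy'

theorem GC_op3 {Y Y' Y'' Z : Type u} (f : Y → Y' → Y'' → Z) :
    ∀ᶠ g in GC P, ∀ y y' y'', g.has y → g.has y' → g.has y'' → g.has (f y y' y'') := by
  have h : ∀ᶠ g in GC P, ∀ y, g.has y → ∀ y' y'', g.has y' → g.has y'' → g.has (f y y' y'') :=
    GC_normalH fun y => GC_op2 (f y)
  filter_upwards [h] with g hg y y' y'' hy hy' hy''
  exact hg y hy y' y'' hy' hy''

/-- from names to ground objects -/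
theorem GC_opN {Z : Type u} (f : Name P → Z) : ∀ᶠ g in GC P, ∀ x ∈ g.gen.N, g.has (f x) :=
  GC_normal fun x => GC_has (f x)

/-- from ground objects to names -/
theorem GC_opH {Y : Type u} (f : Y → Name P) : ∀ᶠ g in GC P, ∀ y, g.has y → f y ∈ g.gen.N :=
  GC_normalH fun y => GC_name (f y)

theorem GC_pair {Y Z : Type u} : ∀ᶠ g in GC P, ∀ (y : Y) (z : Z),
    g.has (y, z) ↔ g.has y ∧ g.has z := by
  filter_upwards [GC_op (P := P) (Prod.fst : Y × Z → Y), GC_op (P := P) (Prod.snd : Y × Z → Z),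
    GC_op2 (P := P) (Prod.mk : Y → Z → Y × Z)] with g h1 h2 h3 y z
  exact ⟨fun h => ⟨h1 _ h, h2 _ h⟩, fun h => h3 y z h.1 h.2⟩

/-- countable sets in the hull are included in the hull -/
theorem GC_ctblSet {Y : Type u} : ∀ᶠ g in GC P, ∀ N : Set Y, N.Countable → g.has N →
    ∀ y ∈ N, g.has y := by
  have h : ∀ᶠ g in GC P, ∀ N : Set Y, g.has N → (N.Countable → ∀ y ∈ N, g.has y) := by
    refine GC_normalH fun N => ?_
    by_cases hN : N.Countable
    · filter_upwards [GC_hasC (P := P) hN] with g hg _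
      exact hg
    · exact Filter.Eventually.of_forall fun g h => absurd h hN
  filter_upwards [h] with g hg N hN hgN
  exact hg N hgN hN

/-- genericity -/
theorem GC_dense {D : Set P} (hD : ∀ p, ∃ q ≤ p, q ∈ D) (hDo : ∀ p ∈ D, ∀ q ≤ p, q ∈ D) :
    ∀ᶠ g in GC P, ∃ n, g.gen.G n ∈ D :=
  ⟨fun _ _ => omegaName, fun _ _ => D, fun _ _ p => hD p, fun _ _ => hDo,
    fun _ _ h => h 0 [] (by simp)⟩

/-- genericity below a condition. PROOF. `GC_dense` for `D` and the conditions incompatible with `p`. -/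
theorem GC_denseBelow {D : Set P} (hDo : ∀ q ∈ D, ∀ r ≤ q, r ∈ D) {p : P}
    (hD : ∀ q ≤ p, ∃ r ≤ q, r ∈ D) :
    ∀ᶠ g in GC P, p ∈ g → ∃ n, g.gen.G n ∈ D := by
  have h1 : ∀ q, ∃ r ≤ q, r ∈ D ∪ {r | ∀ s ≤ r, ¬ s ≤ p} := by
    intro q
    by_cases h : ∃ s ≤ q, s ≤ p
    · obtain ⟨s, hs, hsp⟩ := h
      obtain ⟨r, hr, hrD⟩ := hD s hsp
      exact ⟨r, hr.trans hs, Or.inl hrD⟩
    · push Not at h
      exact ⟨q, le_rfl, Or.inr h⟩
  have h2 : ∀ q ∈ D ∪ {r | ∀ s ≤ r, ¬ s ≤ p}, ∀ r ≤ q, r ∈ D ∪ {r | ∀ s ≤ r, ¬ s ≤ p} := by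
    rintro q (hq | hq) r hr
    · exact Or.inl (hDo q hq r hr)
    · exact Or.inr fun s hs => hq s (hs.trans hr)
  filter_upwards [GC_dense h1 h2] with g hg hp
  obtain ⟨n, hn | hn⟩ := hg
  · exact ⟨n, hn⟩
  · obtain ⟨m, hm⟩ := hp
    exact absurd ((g.gen.anti (le_max_right n m)).trans hm) (hn _ (g.gen.anti (le_max_left n m)))

/-- the same without openness: some element of `D` is in `g` and in the hull. PROOF. `D' = {r | ∃ d ∈ D, r ≤ d}`; choose `d = f r ∈ D` above `r ∈ D'`; `f` is an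
operation (`GC_op`) and `g.has (G n)`. -/
theorem GC_denseBelow' {D : Set P} {p : P} (hD : ∀ q ≤ p, ∃ r ≤ q, r ∈ D) :
    ∀ᶠ g in GC P, p ∈ g → ∃ d ∈ D, d ∈ g ∧ g.has d := by
  classical
  have h1 : ∀ᶠ g in GC P, p ∈ g → ∃ n, g.gen.G n ∈ {r | ∃ d ∈ D, r ≤ d} :=
    GC_denseBelow (D := {r | ∃ d ∈ D, r ≤ d})
      (fun q hq r hr => by
        obtain ⟨d, hd, hq⟩ := hq
        exact ⟨d, hd, hr.trans hq⟩) fun q hq => by
      obtain ⟨r, hr, hrD⟩ := hD q hq
      exact ⟨r, hr, r, hrD, le_rfl⟩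
  filter_upwards [h1, GC_op (P := P) (fun r : P => if h : ∃ d ∈ D, r ≤ d then h.choose else r)]
    with g hg hop hp
  obtain ⟨n, hn⟩ := hg hp
  have h2 : ∃ d ∈ D, g.gen.G n ≤ d := hn
  have h3 := hop _ (g.cond n)
  rw [dif_pos h2] at h3
  exact ⟨h2.choose, h2.choose_spec.1, ⟨n, h2.choose_spec.2⟩, h3⟩

end Pool.Agent.GGen
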