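import Pool.Agent.Lib_HM.ToHM
import Pool.Agent.Lib_HM.Fil
import Mathlib.SetTheory.Cardinal.Order

/-!
# Lib_GG: good generics, the club filter of good generics, semantic forcing

`P` is a forcing notion (a preorder with largest element, in `Type u`). A GOOD GENERIC is a generic sequence over a countable set `N` of names
(`Lib_Forcing`), rich enough to give an ω-model `g.M` of ZFC (`Lib_HM`), such that the conditions of the sequence are IN THE HULL: their check names are
in `N`. `g.has y` says that the ground object `y` is in the hull. `GC P` is the club filter on the good generics: it is generated by the closure of the hull under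
countably many operations and genericity for countably many families of dense open sets indexed by finite lists of names in the hull.
-/

set_option autoImplicit false

namespace Pool.Agent.GGen

open Forcing Inner Name HMod

universe u

variable {P : Type u} [Preorder P] [OrderTop P]

/-- check names, by recursion on a well-order of the type -/
noncomputable def chk {Y : Type u} : Y → Name P :=
  (WellOrderingRel.isWellOrder (α := Y)).wf.fix
    (fun y ih => Name.mk {y' : Y // WellOrderingRel y' y} (fun y' => ih y'.1 y'.2) (fun _ => ⊤))

/-- good generics -/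
structure GG (P : Type u) [Preorder P] [OrderTop P] where
  gen : Gen P
  rich : Rich gen
  pg : pgName ∈ gen.N
  cond : ∀ n, chk (gen.G n) ∈ gen.N

/-- the model of a good generic -/
noncomputable def GG.M (g : GG P) : HM.{u + 1} := toHM g.rich g.pg

/-- `p ∈ g`: the condition `p` is in the generic filter -/
instance : Membership P (GG P) := ⟨fun g p => ∃ n, g.gen.G n ≤ p⟩

/-- the ground object `y` is in the hull -/
def GG.has (g : GG P) {Y : Type u} (y : Y) : Prop := (chk y : Name P) ∈ g.gen.N

/-- the element of the model named by a name of the hull -/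
def GG.el (g : GG P) (x : Name P) (h : x ∈ g.gen.N) : g.M.M := g.gen.cls ⟨x, h⟩

/-- `T` holds if the hull is closed under the operations and the sequence meets the dense sets -/
def GCset (T : Set (GG P)) : Prop :=
  ∃ (ops : ℕ → List (Name P) → Name P) (D : ℕ → List (Name P) → Set P),
    (∀ k l p, ∃ q ≤ p, q ∈ D k l) ∧ (∀ k l, ∀ p ∈ D k l, ∀ q ≤ p, q ∈ D k l) ∧
    ∀ g : GG P, (∀ k l, (∀ x ∈ l, x ∈ g.gen.N) → ops k l ∈ g.gen.N) →
      (∀ k l, (∀ x ∈ l, x ∈ g.gen.N) → ∃ n, g.gen.G n ∈ D k l) → g ∈ T

/-- the club filter of good generics -/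
def GC (P : Type u) [Preorder P] [OrderTop P] : Filter (GG P) where
  sets := {T | GCset T}
  univ_sets := ⟨fun _ _ => omegaName, fun _ _ => Set.univ, fun _ _ p => ⟨p, le_rfl, trivial⟩,
    fun _ _ _ _ _ _ => trivial, fun _ _ _ => trivial⟩
  sets_of_superset := by
    rintro S T ⟨ops, D, h1, h0, h2⟩ hST
    exact ⟨ops, D, h1, h0, fun g h3 h4 => hST (h2 g h3 h4)⟩
  inter_sets := by
    rintro S T ⟨ops, D, h1, h0, h2⟩ ⟨ops', D', h1', h0', h2'⟩
    refine ⟨fun k l => if k % 2 = 0 then ops (k / 2) l else ops' (k / 2) l,
      fun k l => if k % 2 = 0 then D (k / 2) l else D' (k / 2) l, ?_, ?_, ?_⟩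
    · intro k l p
      by_cases hk : k % 2 = 0
      · simpa [hk] using h1 (k / 2) l p
      · simpa [hk] using h1' (k / 2) l p
    · intro k l p hp q hq
      by_cases hk : k % 2 = 0
      · simp only [hk, if_true] at hp ⊢
        exact h0 (k / 2) l p hp q hq
      · simp only [hk, if_false] at hp ⊢
        exact h0' (k / 2) l p hp q hq
    · intro g h3 h4
      refine ⟨h2 g (fun k l hl => ?_) (fun k l hl => ?_), h2' g (fun k l hl => ?_) (fun k l hl => ?_)⟩
      · have := h3 (2 * k) l hl
        simpa using this
      · have := h4 (2 * k) l hl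
        simpa using this
      · have := h3 (2 * k + 1) l hl
        have h5 : (2 * k + 1) / 2 = k := by omega
        simpa [h5, Nat.add_mod] using this
      · have := h4 (2 * k + 1) l hl
        have h5 : (2 * k + 1) / 2 = k := by omega
        simpa [h5, Nat.add_mod] using this

/-- semantic forcing -/
def Fo (p : P) (T : GG P → Prop) : Prop := ∀ᶠ g in GC P, p ∈ g → T g

/-- `T` is decided by a dense set of conditions -/
def Dec (T : GG P → Prop) : Prop := ∀ p : P, ∃ q ≤ p, Fo q T ∨ Fo q (fun g => ¬ T g)

/-- evaluation of a shallow name -/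
def ev {ι : Type*} (X : ι → Set P) (g : GG P) : Set ι := {i | ∃ c ∈ X i, c ∈ g}

end Pool.Agent.GGen
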