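import Pool.Agent.Lib_GG.Club

/-!
# Piece GG2: semantic forcing and decided predicates
-/

set_option autoImplicit false

namespace Pool.Agent.GGen

open Forcing Inner Name HMod

universe u

variable {P : Type u} [Preorder P] [OrderTop P] {T T' : GG P → Prop} {p q : P}

theorem Fo.mono (h : Fo p T) (hq : q ≤ p) : Fo q T := by
  filter_upwards [h] with g hg hgq
  exact hg (mem_up hgq hq)

theorem Fo.imp (h : Fo p T) (h' : Fo p (fun g => T g → T' g)) : Fo p T' := by
  filter_upwards [h, h'] with g h1 h2 hp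
  exact h2 hp (h1 hp)

theorem Fo.and (h : Fo p T) (h' : Fo p T') : Fo p (fun g => T g ∧ T' g) := by
  filter_upwards [h, h'] with g h1 h2 hp
  exact ⟨h1 hp, h2 hp⟩

theorem fo_of_eventually (h : ∀ᶠ g in GC P, T g) : Fo p T := by
  filter_upwards [h] with g h1 _
  exact h1

theorem fo_top (h : Fo (⊤ : P) T) : ∀ᶠ g in GC P, T g := by
  filter_upwards [h] with g h1
  exact h1 (top_mem g)

theorem Fo.congr (h : Fo p T) (h' : ∀ᶠ g in GC P, T g ↔ T' g) : Fo p T' := by
  filter_upwards [h, h'] with g h1 h2 hp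
  exact h2.1 (h1 hp)

theorem fo_all {ι : Sort*} [Countable ι] {T : ι → GG P → Prop} (h : ∀ i, Fo p (T i)) :
    Fo p (fun g => ∀ i, T i g) := by
  filter_upwards [eventually_countable_forall.2 h] with g h1 hp i
  exact h1 i hp

theorem fo_allH {Y : Type u} {T : Y → GG P → Prop} (h : ∀ y, Fo p (T y)) :
    Fo p (fun g => ∀ y, g.has y → T y g) := by
  filter_upwards [GC_normalH (T := fun y g => p ∈ g → T y g) h] with g h1 hp y hy
  exact h1 y hy hp

theorem fo_allN {T : Name P → GG P → Prop} (h : ∀ x, Fo p (T x)) :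
    Fo p (fun g => ∀ x ∈ g.gen.N, T x g) := by
  filter_upwards [GC_normal (T := fun x g => p ∈ g → T x g) h] with g h1 hp x hx
  exact h1 x hx hp

theorem fo_mem_iff : Fo p (fun g => q ∈ g) ↔ ∀ r ≤ p, ∃ s ≤ r, s ≤ q := by
  constructor
  · intro h r hr
    obtain ⟨g, h1, h2⟩ := GC_exists' h r
    obtain ⟨s, _, _, h3, h4⟩ := mem_common h2 (h1 (mem_up h2 hr))
    exact ⟨s, h3, h4⟩
  · intro h
    filter_upwards [GC_denseBelow (D := {s : P | s ≤ q}) (fun a ha b hb => hb.trans ha) h]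
      with g h1 hp
    exact h1 hp

/-- conditions in the hull that force `T` -/
theorem GC_fo (T : GG P → Prop) : ∀ᶠ g in GC P, ∀ r, g.has r → Fo r T → r ∈ g → T g := by
  refine GC_normalH (T := fun (r : P) g => Fo r T → r ∈ g → T g) fun r => ?_
  by_cases h : Fo r T
  · filter_upwards [h] with g h1 _
    exact h1
  · filter_upwards with g h1
    exact absurd h1 h

/-- PROOF. The set `{r | Fo r T}` is dense below `p` and open; by normality (`GC_normalH` for `Y = P`), club many `g` satisfy: for all `r` in the hull, `Fo r T` and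
`r ∈ g` imply `T g`. By `GC_denseBelow` some `G n` is in the set, and `g.has (G n)`. -/
theorem fo_dense (h : ∀ q ≤ p, ∃ r ≤ q, Fo r T) : Fo p T := by
  filter_upwards [GC_denseBelow (D := {r : P | Fo r T}) (fun a ha b hb => Fo.mono ha hb) h,
    GC_fo T] with g h1 h2 hp
  obtain ⟨n, hn⟩ := h1 hp
  exact h2 _ (g.cond n) hn (G_mem g n)

theorem fo_exists (h : Fo p T) (h' : ∀ᶠ g in GC P, T' g) : ∃ g, p ∈ g ∧ T g ∧ T' g := by
  obtain ⟨g, h1, h2⟩ := GC_exists' (Filter.Eventually.and (p := fun g => p ∈ g → T g) h h') p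
  exact ⟨g, h2, h1.1 h2, h1.2⟩

theorem fo_false (h : Fo p (fun _ => False)) : False := by
  obtain ⟨g, h1, h2⟩ := GC_exists' h p
  exact h1 h2

theorem fo_const {φ : Prop} : Fo p (fun _ => φ) ↔ φ := by
  constructor
  · intro h
    obtain ⟨g, h1, h2⟩ := GC_exists' h p
    exact h1 h2
  · intro h
    filter_upwards with g _
    exact h

/-! ### decided predicates -/

/-- `Fo p (¬ T)` below any `p` that has no extension forcing `T` -/
theorem Dec.neg (h : Dec T) (h' : ∀ q ≤ p, ¬ Fo q T) : Fo p (fun g => ¬ T g) := by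
  refine fo_dense fun q hq => ?_
  obtain ⟨r, hr, h1 | h1⟩ := h q
  · exact absurd h1 (h' r (hr.trans hq))
  · exact ⟨r, hr, h1⟩

/-- truth lemma -/
theorem Dec.truth (h : Dec T) : ∀ᶠ g in GC P, T g → ∃ n, Fo (g.gen.G n) T := by
  filter_upwards [GC_dense (D := {q : P | Fo q T ∨ Fo q (fun g => ¬ T g)}) h
      (fun p hp q hq => hp.imp (fun h => h.mono hq) (fun h => h.mono hq)),
    GC_fo (fun g => ¬ T g)] with g h1 h2 hT
  obtain ⟨n, hn | hn⟩ := h1
  · exact ⟨n, hn⟩
  · exact absurd hT (h2 _ (g.cond n) hn (G_mem g n))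

theorem Dec.truth' (h : Dec T) : ∀ᶠ g in GC P, T g → ∀ p ∈ g, ∃ q ∈ g, g.has q ∧ q ≤ p ∧ Fo q T := by
  filter_upwards [h.truth] with g h1 hT p hp
  obtain ⟨n, hn⟩ := h1 hT
  obtain ⟨m, hm⟩ := hp
  exact ⟨g.gen.G (max n m), G_mem g _, g.cond _, (g.gen.anti (le_max_right n m)).trans hm,
    hn.mono (g.gen.anti (le_max_left n m))⟩

/-- the uniform version for families indexed by ground objects -/
theorem Dec.truthH {Y : Type u} {T : Y → GG P → Prop} (h : ∀ y, Dec (T y)) :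
    ∀ᶠ g in GC P, ∀ y, g.has y → T y g → ∃ n, Fo (g.gen.G n) (T y) :=
  GC_normalH fun y => (h y).truth

theorem Dec.not_fo (h : Dec T) (h' : ¬ Fo p T) : ∃ q ≤ p, Fo q (fun g => ¬ T g) := by
  by_contra h1
  push Not at h1
  refine h' (fo_dense fun q hq => ?_)
  obtain ⟨r, hr, h2 | h2⟩ := h q
  · exact ⟨r, hr, h2⟩
  · exact absurd h2 (h1 r (hr.trans hq))

theorem Dec.congr (h : Dec T) (h' : ∀ᶠ g in GC P, T g ↔ T' g) : Dec T' := by
  intro p
  obtain ⟨q, hq, h1 | h1⟩ := h p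
  · exact ⟨q, hq, Or.inl (h1.congr h')⟩
  · refine ⟨q, hq, Or.inr (h1.congr ?_)⟩
    filter_upwards [h'] with g h2
    exact not_congr h2

/-- the elements of a set of conditions: no restriction to the hull is needed. PROOF. As in `dec_exH`; in the second case the set
`{r | ∃ y, r ≤ c y}` has no element below `p`. -/
theorem dec_exMem {Y : Type*} (c : Y → P) : Dec (fun g => ∃ y, c y ∈ g) := by
  intro p
  by_cases h : ∃ q ≤ p, ∃ y, q ≤ c y
  · obtain ⟨q, hq, y, hy⟩ := h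
    refine ⟨q, hq, Or.inl ?_⟩
    filter_upwards with g hg
    exact ⟨y, mem_up hg hy⟩
  · refine ⟨p, le_rfl, Or.inr ?_⟩
    filter_upwards with g hg
    rintro ⟨y, hy⟩
    obtain ⟨r, _, _, h1, h2⟩ := mem_common hg hy
    exact h ⟨r, h1, y, h2⟩

theorem dec_mem (c : P) : Dec (fun g => c ∈ g) := by
  refine (dec_exMem (fun _ : Unit => c)).congr ?_
  filter_upwards with g
  exact ⟨fun ⟨_, h⟩ => h, fun h => ⟨(), h⟩⟩

theorem dec_const (φ : Prop) : Dec (fun _ : GG P => φ) := by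
  intro p
  by_cases h : φ
  · exact ⟨p, le_rfl, Or.inl (fo_const.2 h)⟩
  · exact ⟨p, le_rfl, Or.inr (fo_const.2 h)⟩

theorem Dec.not (h : Dec T) : Dec (fun g => ¬ T g) := by
  intro p
  obtain ⟨q, hq, h1 | h1⟩ := h p
  · refine ⟨q, hq, Or.inr (h1.congr ?_)⟩
    filter_upwards with g
    exact not_not.symm
  · exact ⟨q, hq, Or.inl h1⟩

theorem Dec.and (h : Dec T) (h' : Dec T') : Dec (fun g => T g ∧ T' g) := by
  intro p
  obtain ⟨q, hq, h1 | h1⟩ := h p
  · obtain ⟨r, hr, h2 | h2⟩ := h' q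
    · exact ⟨r, hr.trans hq, Or.inl ((h1.mono hr).and h2)⟩
    · refine ⟨r, hr.trans hq, Or.inr (h2.imp (fo_of_eventually ?_))⟩
      filter_upwards with g h3 h4
      exact h3 h4.2
  · refine ⟨q, hq, Or.inr (h1.imp (fo_of_eventually ?_))⟩
    filter_upwards with g h3 h4
    exact h3 h4.1

theorem Dec.or (h : Dec T) (h' : Dec T') : Dec (fun g => T g ∨ T' g) := by
  refine (h.not.and h'.not).not.congr ?_
  filter_upwards with g
  tauto

theorem Dec.imp (h : Dec T) (h' : Dec T') : Dec (fun g => T g → T' g) := by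
  refine (h.not.or h').congr ?_
  filter_upwards with g
  tauto

theorem Dec.iff (h : Dec T) (h' : Dec T') : Dec (fun g => (T g ↔ T' g)) := by
  refine ((h.imp h').and (h'.imp h)).congr ?_
  filter_upwards with g
  tauto

theorem dec_ex {ι : Sort*} [Countable ι] {T : ι → GG P → Prop} (h : ∀ i, Dec (T i)) :
    Dec (fun g => ∃ i, T i g) := by
  intro p
  by_cases h1 : ∃ q ≤ p, ∃ i, Fo q (T i)
  · obtain ⟨q, hq, i, hi⟩ := h1
    refine ⟨q, hq, Or.inl (hi.imp (fo_of_eventually ?_))⟩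
    filter_upwards with g h2
    exact ⟨i, h2⟩
  · refine ⟨p, le_rfl, Or.inr ?_⟩
    have h2 : Fo p (fun g => ∀ i, ¬ T i g) :=
      fo_all fun i => (h i).neg fun q hq h3 => h1 ⟨q, hq, i, h3⟩
    refine h2.imp (fo_of_eventually ?_)
    filter_upwards with g h3
    rintro ⟨i, hi⟩
    exact h3 i hi

theorem dec_all {ι : Sort*} [Countable ι] {T : ι → GG P → Prop} (h : ∀ i, Dec (T i)) :
    Dec (fun g => ∀ i, T i g) := by
  refine (dec_ex fun i => (h i).not).not.congr ?_
  filter_upwards with g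
  exact not_exists_not

/-- PROOF. Let `p` be given. If some `q ≤ p` forces `T y` for some `y`, `q` forces the existential statement (`GC_has y`). Otherwise `p` forces
`¬ T y` for all `y` (`Dec.neg`), so by `fo_allH` it forces `∀ y, has y → ¬ T y`. -/
theorem dec_exH {Y : Type u} {T : Y → GG P → Prop} (h : ∀ y, Dec (T y)) :
    Dec (fun g => ∃ y, g.has y ∧ T y g) := by
  intro p
  by_cases h1 : ∃ q ≤ p, ∃ y, Fo q (T y)
  · obtain ⟨q, hq, y, hy⟩ := h1
    refine ⟨q, hq, Or.inl (hy.imp (fo_of_eventually ?_))⟩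
    filter_upwards [GC_has (P := P) y] with g h3 h2
    exact ⟨y, h3, h2⟩
  · refine ⟨p, le_rfl, Or.inr ?_⟩
    have h2 : Fo p (fun g => ∀ y, g.has y → ¬ T y g) :=
      fo_allH fun y => (h y).neg fun q hq h3 => h1 ⟨q, hq, y, h3⟩
    refine h2.imp (fo_of_eventually ?_)
    filter_upwards with g h3
    rintro ⟨y, hy, hy'⟩
    exact h3 y hy hy'

theorem dec_allH {Y : Type u} {T : Y → GG P → Prop} (h : ∀ y, Dec (T y)) :
    Dec (fun g => ∀ y, g.has y → T y g) := by
  refine (dec_exH fun y => (h y).not).not.congr ?_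
  filter_upwards with g
  constructor
  · intro h1 y hy
    by_contra h2
    exact h1 ⟨y, hy, h2⟩
  · rintro h1 ⟨y, hy, h2⟩
    exact h2 (h1 y hy)

theorem dec_exN {T : Name P → GG P → Prop} (h : ∀ x, Dec (T x)) :
    Dec (fun g => ∃ x ∈ g.gen.N, T x g) := by
  intro p
  by_cases h1 : ∃ q ≤ p, ∃ x, Fo q (T x)
  · obtain ⟨q, hq, x, hx⟩ := h1
    refine ⟨q, hq, Or.inl (hx.imp (fo_of_eventually ?_))⟩
    filter_upwards [GC_name x] with g h3 h2
    exact ⟨x, h3, h2⟩
  · refine ⟨p, le_rfl, Or.inr ?_⟩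
    have h2 : Fo p (fun g => ∀ x ∈ g.gen.N, ¬ T x g) :=
      fo_allN fun x => (h x).neg fun q hq h3 => h1 ⟨q, hq, x, h3⟩
    refine h2.imp (fo_of_eventually ?_)
    filter_upwards with g h3
    rintro ⟨x, hx, hx'⟩
    exact h3 x hx hx'

theorem dec_allN {T : Name P → GG P → Prop} (h : ∀ x, Dec (T x)) :
    Dec (fun g => ∀ x ∈ g.gen.N, T x g) := by
  refine (dec_exN fun x => (h x).not).not.congr ?_
  filter_upwards with g
  constructor
  · intro h1 x hx
    by_contra h2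
    exact h1 ⟨x, hx, h2⟩
  · rintro h1 ⟨x, hx, h2⟩
    exact h2 (h1 x hx)

theorem dec_ev {ι : Type*} (X : ι → Set P) (i : ι) : Dec (fun g => i ∈ ev X g) := by
  refine (dec_exMem (fun c : X i => c.1)).congr ?_
  filter_upwards with g
  constructor
  · rintro ⟨c, hc⟩
    exact ⟨c.1, c.2, hc⟩
  · rintro ⟨c, hc, hg⟩
    exact ⟨⟨c, hc⟩, hg⟩

/-- properties that hold along the sequence, for a downwards closed property of conditions -/
theorem fo_dec_seq {Φ : P → Prop} (hΦ : ∀ a b, b ≤ a → Φ a → Φ b) :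
    Dec (fun g : GG P => ∃ n, Φ (g.gen.G n)) := by
  refine (dec_exMem (fun c : {c : P // Φ c} => c.1)).congr ?_
  filter_upwards with g
  constructor
  · rintro ⟨c, n, hn⟩
    exact ⟨n, hΦ _ _ hn c.2⟩
  · rintro ⟨n, hn⟩
    exact ⟨⟨_, hn⟩, G_mem g n⟩

/-- membership in the model -/
theorem dec_E (x y : Name P) :
    Dec (fun g => ∃ (hx : x ∈ g.gen.N) (hy : y ∈ g.gen.N), g.M.E (g.el x hx) (g.el y hy)) := by
  refine (fo_dec_seq (Φ := fun c => fmem x y c) fun a b hb ha => fmem_mono ha hb).congr ?_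
  filter_upwards [GC_name x, GC_name y] with g hx hy
  constructor
  · intro h
    exact ⟨hx, hy, h⟩
  · rintro ⟨_, _, h⟩
    exact h

theorem dec_eq (x y : Name P) :
    Dec (fun g => ∃ (hx : x ∈ g.gen.N) (hy : y ∈ g.gen.N), g.el x hx = g.el y hy) := by
  refine (fo_dec_seq (Φ := fun c => feq x y c) fun a b hb ha => feq_mono ha hb).congr ?_
  filter_upwards [GC_name x, GC_name y] with g hx hy
  constructor
  · intro h
    exact ⟨hx, hy, g.gen.cls_eq.2 h⟩
  · rintro ⟨_, _, h⟩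
    exact g.gen.cls_eq.1 h

/-! ### shallow names -/

/-- `p` forces `i ∈ X` -/
theorem fo_ev_iff {ι : Type*} {X : ι → Set P} {i : ι} :
    Fo p (fun g => i ∈ ev X g) ↔ ∀ q ≤ p, ∃ r ≤ q, ∃ c ∈ X i, r ≤ c := by
  constructor
  · intro h q hq
    obtain ⟨g, h1, h2⟩ := GC_exists' h q
    obtain ⟨c, hc, hg⟩ := h1 (mem_up h2 hq)
    obtain ⟨r, _, _, h3, h4⟩ := mem_common h2 hg
    exact ⟨r, h3, c, hc, h4⟩
  · intro h
    filter_upwards [GC_denseBelow (D := {r : P | ∃ c ∈ X i, r ≤ c})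
      (fun a ⟨c, hc, ha⟩ b hb => ⟨c, hc, hb.trans ha⟩) h] with g h1 hp
    obtain ⟨n, c, hc, hn⟩ := h1 hp
    exact ⟨c, hc, n, hn⟩

theorem fo_not_ev_iff {ι : Type*} {X : ι → Set P} {i : ι} :
    Fo p (fun g => i ∉ ev X g) ↔ ∀ q ≤ p, ∀ c ∈ X i, ¬ q ≤ c := by
  constructor
  · intro h q hq c hc hqc
    obtain ⟨g, h1, h2⟩ := GC_exists' h q
    exact h1 (mem_up h2 hq) ⟨c, hc, mem_up h2 hqc⟩
  · intro h
    filter_upwards with g hp
    rintro ⟨c, hc, hg⟩
    obtain ⟨r, _, _, h3, h4⟩ := mem_common hp hg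
    exact h r h3 c hc h4

/-- every decided family of properties of base objects is given by a shallow name -/
theorem ev_of_dec {ι : Type} [Countable ι] {T : ι → GG P → Prop} (h : ∀ i, Dec (T i)) :
    ∀ᶠ g in GC P, ev (fun i => {c : P | Fo c (T i)}) g = {i | T i g} := by
  filter_upwards [eventually_countable_forall.2 fun i => (h i).truth,
    eventually_countable_forall.2 fun i => GC_fo (T i)] with g h1 h2
  ext i
  constructor
  · rintro ⟨c, hc, n, hn⟩
    exact h2 i _ (g.cond n) (Fo.mono hc hn) (G_mem g n)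
  · intro hi
    obtain ⟨n, hn⟩ := h1 i hi
    exact ⟨_, hn, G_mem g n⟩

end Pool.Agent.GGen
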