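import Pool.Agent.Lib_GG.Fo

/-!
# Piece GG3: the reals of the model of a good generic

`ι` is a base type (`BL`), e.g. `ℕ`, `Finset ℕ`, products. Shallow names `X : ι → Set P` are evaluated to subsets of `ι`; in club many `g` the internal subsets
of `ι` are exactly the evaluations of the shallow names of the hull.
-/

set_option autoImplicit false

namespace Pool.Agent.GGen

open Forcing Inner Name HMod

universe u

variable {P : Type u} [Preorder P] [OrderTop P]

/-- club many models, by `club_gen` (its set `S` of names is in the hull of club many `g`) -/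
theorem GC_club {T : HM.{u + 1} → Prop} (h : ∀ᶠ 𝔐 in Club.{u + 1}, T 𝔐) :
    ∀ᶠ g in GC P, T g.M := by
  obtain ⟨S, hS, h2⟩ := club_gen (P := P) h
  have h3 : ∀ᶠ g in GC P, ∀ x ∈ S, x ∈ g.gen.N :=
    (eventually_countable_ball hS).2 fun x _ => GC_name x
  filter_upwards [h3] with g hg
  exact h2 g.gen g.rich g.pg hg

/-- by `mem_relName`, `relName` is an operation -/
theorem int_ev_nat : ∀ᶠ g in GC P, ∀ X : ℕ → Set P, g.has X → Int g.M (fun n => n ∈ ev X g) := by
  filter_upwards [GC_opH (P := P) (fun X : ℕ → Set P => relName X)] with g hg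
  intro X hX
  have h1 : evR X g.gen.G ∈ real g.M := evR_mem g.rich g.pg (hg X hX)
  refine int_congr (fun n => ?_) h1
  constructor
  · rintro ⟨k, c, hc, hk⟩
    exact ⟨c, hc, k, hk⟩
  · rintro ⟨c, hc, k, hk⟩
    exact ⟨k, c, hc, hk⟩

/-- PROOF. Let `x` be a name in `N` of a set `s` that represents `S`; put `X n = {p | fmem (num n) x p}`; this is an operation on names (`GC_opN`). -/
theorem rep_ev_nat : ∀ᶠ g in GC P, ∀ S : Set ℕ, Int g.M (fun n => n ∈ S) →
    ∃ X : ℕ → Set P, g.has X ∧ ev X g = S := by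
  filter_upwards [GC_opN (P := P) (fun x : Name P => fun n : ℕ => {p : P | fmem (num n) x p})]
    with g hg
  intro S hS
  obtain ⟨⟨s, hs⟩⟩ := hS
  obtain ⟨x, hx⟩ := g.gen.exists_rep s
  refine ⟨_, hg x.1 x.2, ?_⟩
  ext n
  have h1 : g.M.E (g.M.nu n) s ↔ n ∈ S := hs n
  rw [← h1, ← hx]
  constructor
  · rintro ⟨c, hc, k, hk⟩
    exact ⟨k, fmem_mono hc hk⟩
  · rintro ⟨k, hk⟩
    exact ⟨g.gen.G k, hk, k, le_rfl⟩

section base
variable {ι ι' : Type} [∀ 𝔐 : HM.{u + 1}, Cod 𝔐 ι] [BL.{u + 1} ι]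
  [∀ 𝔐 : HM.{u + 1}, Cod 𝔐 ι'] [BL.{u + 1} ι']

/-- PROOF. Let `X' n = ⋃ {X i | code i = n}`, an operation; `i ∈ ev X g ↔ code i ∈ ev X' g`; `int_comp` with `BL.int`. -/
theorem int_ev : ∀ᶠ g in GC P, ∀ X : ι → Set P, g.has X → Int g.M (fun i => i ∈ ev X g) := by
  filter_upwards [int_ev_nat (P := P), GC_op (P := P)
    (fun X : ι → Set P => fun n : ℕ => {p : P | ∃ i, BL.code.{u + 1} i = n ∧ p ∈ X i})] with g h1 h2
  intro X hX
  refine int_congr (fun i => ?_) (int_comp (h1 _ (h2 X hX)) (BL.int (α := ι) g.M))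
  constructor
  · rintro ⟨c, ⟨j, hj, hc⟩, hg⟩
    have hji : j = i := BL.inj hj
    subst hji
    exact ⟨c, hc, hg⟩
  · rintro ⟨c, hc, hg⟩
    exact ⟨c, ⟨i, rfl, hc⟩, hg⟩

/-- PROOF. `{n | ∃ i, code i = n ∧ i ∈ S}` is internal; take `X'` for it and `X i = X' (code i)`. -/
theorem rep_ev : ∀ᶠ g in GC P, ∀ S : Set ι, Int g.M (fun i => i ∈ S) →
    ∃ X : ι → Set P, g.has X ∧ ev X g = S := by
  filter_upwards [rep_ev_nat (P := P), GC_op (P := P)
    (fun X : ℕ → Set P => fun i : ι => X (BL.code.{u + 1} i))] with g h1 h2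
  intro S hS
  have h3 : Int g.M (fun n : ℕ => n ∈ {n : ℕ | ∃ i : ι, BL.code.{u + 1} i = n ∧ i ∈ S}) := by
    refine int_ex (R := fun (n : ℕ) (i : ι) => BL.code.{u + 1} i = n ∧ i ∈ S) (int_and ?_ ?_)
    · exact int_eqF (intF_comp (BL.int (α := ι) g.M) intF_snd) intF_fst
    · exact int_comp hS intF_snd
  obtain ⟨X, hX, hXS⟩ := h1 _ h3
  refine ⟨_, h2 X hX, ?_⟩
  ext i
  have h4 : i ∈ ev (fun i : ι => X (BL.code.{u + 1} i)) g ↔ BL.code.{u + 1} i ∈ ev X g := Iff.rfl
  rw [h4, hXS]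
  constructor
  · rintro ⟨j, hj, hjS⟩
    have hji : j = i := BL.inj hj
    subst hji
    exact hjS
  · intro hi
    exact ⟨i, rfl, hi⟩

/-- internal functions between base types -/
theorem rep_fun : ∀ᶠ g in GC P, ∀ f : ι → ι', IntF g.M f →
    ∃ X : ι × ι' → Set P, g.has X ∧ ev X g = {q | f q.1 = q.2} := by
  filter_upwards [rep_ev (P := P) (ι := ι × ι')] with g h1
  intro f hf
  exact h1 {q : ι × ι' | f q.1 = q.2} hf.graph

/-- internal families of sets, indexed by a base type -/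
theorem rep_fam : ∀ᶠ g in GC P, ∀ R : ι → ι' → Prop, Int g.M (fun q : ι × ι' => R q.1 q.2) →
    ∃ X : ι → ι' → Set P, g.has X ∧ ∀ i i', R i i' ↔ i' ∈ ev (X i) g := by
  filter_upwards [rep_ev (P := P) (ι := ι × ι'), GC_op (P := P)
    (fun X : ι × ι' → Set P => fun (i : ι) (i' : ι') => X (i, i'))] with g h1 h2
  intro R hR
  obtain ⟨X, hX, hXR⟩ := h1 {q : ι × ι' | R q.1 q.2} hR
  refine ⟨_, h2 X hX, fun i i' => ?_⟩
  have h3 : (i, i') ∈ ev X g ↔ R i i' := by rw [hXR]; exact Iff.rfl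
  exact h3.symm

theorem int_evFam : ∀ᶠ g in GC P, ∀ X : ι → ι' → Set P, g.has X →
    Int g.M (fun q : ι × ι' => q.2 ∈ ev (X q.1) g) := by
  filter_upwards [int_ev (P := P) (ι := ι × ι'), GC_op (P := P)
    (fun X : ι → ι' → Set P => fun q : ι × ι' => X q.1 q.2)] with g h1 h2
  intro X hX
  exact h1 _ (h2 X hX)

/-- decided families are internal -/
theorem int_of_dec {T : ι → GG P → Prop} (h : ∀ i, Dec (T i)) :
    ∀ᶠ g in GC P, Int g.M (fun i => T i g) := by
  have : Countable ι := (BL.inj (α := ι)).countable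
  filter_upwards [int_ev (P := P) (ι := ι), GC_has (P := P) (fun i : ι => {c : P | Fo c (T i)}),
    ev_of_dec h] with g h1 h2 h3
  have h4 := h1 _ h2
  rw [h3] at h4
  exact h4

/-- decided families with a ground parameter; the shallow name is an operation of the parameter -/
theorem int_of_decH {Y : Type u} {T : Y → ι → GG P → Prop} (h : ∀ y i, Dec (T y i)) :
    ∀ᶠ g in GC P, ∀ y, g.has y → Int g.M (fun i => T y i g) := by
  exact GC_normalH fun y => int_of_dec (h y)

/-- a countable family of ground objects, all of it in the hull: sequences of reals are internal -/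
theorem int_evSeq {Y : Type u} (y : ℕ → Y) (X : Y → ι → Set P) :
    ∀ᶠ g in GC P, Int g.M (fun q : ℕ × ι => q.2 ∈ ev (X (y q.1)) g) := by
  filter_upwards [int_ev (P := P) (ι := ℕ × ι),
    GC_has (P := P) (fun q : ℕ × ι => X (y q.1) q.2)] with g h1 h2
  exact h1 _ h2

end base

end Pool.Agent.GGen
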